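import Pool.Agent.Lib.MP_9ed008_lc.DP

/-!
# The algorithm on lists, and its correctness

Species are natural numbers; a set of species is a list of natural numbers; `om` lists all species.
-/

namespace Pool.Agent.Lib.MP_9ed008_lc

/-- membership -/
def memB (x : ℕ) (l : List ℕ) : Bool := l.any (fun y => decide (y = x))

/-- inclusion -/
def sbB (a b : List ℕ) : Bool := a.all (fun x => memB x b)

/-- disjointness -/
def djB (a b : List ℕ) : Bool := a.all (fun x => !memB x b)

/-- difference -/
def dfB (a b : List ℕ) : List ℕ := a.filter (fun x => !memB x b)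

/-- union, inside `om` -/
def unB (om a b : List ℕ) : List ℕ := om.filter (fun x => memB x a || memB x b)

/-- overlap -/
def ovB (a b : List ℕ) : Bool := !(djB a b) && (!(sbB a b) && !(sbB b a))

theorem memB_iff {x : ℕ} {l : List ℕ} : memB x l = true ↔ x ∈ l.toFinset := by
  simp [memB]

theorem sbB_iff {a b : List ℕ} : sbB a b = true ↔ a.toFinset ⊆ b.toFinset := by
  simp only [sbB, List.all_eq_true, memB_iff, Finset.subset_iff, List.mem_toFinset]

theorem djB_iff {a b : List ℕ} : djB a b = true ↔ Disjoint a.toFinset b.toFinset := by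
  simp only [djB, List.all_eq_true, Bool.not_eq_true', ← Bool.not_eq_true, memB_iff,
    Finset.disjoint_left, List.mem_toFinset]

theorem toFinset_dfB (a b : List ℕ) : (dfB a b).toFinset = a.toFinset \ b.toFinset := by
  ext x
  rw [Finset.mem_sdiff, ← memB_iff (l := b), List.mem_toFinset, dfB, List.mem_filter,
    List.mem_toFinset]
  simp

theorem toFinset_unB (om a b : List ℕ) :
    (unB om a b).toFinset = om.toFinset ∩ (a.toFinset ∪ b.toFinset) := by
  ext x
  rw [Finset.mem_inter, Finset.mem_union, ← memB_iff (l := b), ← memB_iff (l := a),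
    List.mem_toFinset, unB, List.mem_filter, List.mem_toFinset]
  simp

theorem ovB_iff {a b : List ℕ} : ovB a b = true ↔ Ov a.toFinset b.toFinset := by
  simp only [ovB, Bool.and_eq_true, Bool.not_eq_true', ← Bool.not_eq_true, djB_iff, sbB_iff, Ov,
    Finset.not_disjoint_iff, Finset.not_subset]

/-- the candidates for the loss cluster of a character with gain set `a`, derived from a
character with gain set `p.1` and loss cluster `p.2` -/
def candB (om a : List ℕ) (p : List ℕ × List ℕ) : List (List ℕ) :=
  bif ovB a (unB om p.1 p.2) then [dfB (unB om p.1 p.2) a]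
  else bif ovB a (unB om p.2 p.2) then [dfB (unB om p.2 p.2) a] else []

/-- at most one derived pair -/
def deriveB (om : List ℕ) (L : List (List ℕ × List ℕ)) (a : List ℕ) : List (List ℕ × List ℕ) :=
  ((L.flatMap (fun p => candB om a p)).head?.toList).map (fun v => (a, v))

/-- one round -/
def stepC (om : List ℕ) (As : List (List ℕ)) (L : List (List ℕ × List ℕ)) :
    List (List ℕ × List ℕ) :=
  L ++ As.flatMap (fun a => deriveB om L a)

/-- the closure of a seed -/
def closC (om : List ℕ) (As : List (List ℕ)) (a b : List ℕ) : List (List ℕ × List ℕ) :=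
  As.foldl (fun L _ => stepC om As L) [(a, dfB b a)]

/-- the family of candidate clusters -/
def famC (om : List ℕ) (As : List (List ℕ)) : List (List ℕ) :=
  [] :: (om :: (As ++ As.flatMap (fun a => As.flatMap (fun b =>
    (closC om As a b).flatMap (fun p => [p.2, unB om p.1 p.2])))))

/-- is the character with gain set `a` flipped at `x` -/
def flipB (a x m : List ℕ) : Bool := sbB a x && ((!(djB a m) && !(sbB a m)) || sbB x a)

/-- forced set -/
def hsB (a x m : List ℕ) : List ℕ :=
  bif flipB a x m then dfB x a else bif sbB a x then a else bif djB a x then [] else dfB x a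

/-- test of one set `x` with maximal inner cluster `m`, on the base of the good sets `G` -/
def condB (chars : List (List ℕ × List ℕ)) (G : List (List ℕ)) (x m : List ℕ) : Bool :=
  chars.all (fun c => !(flipB c.1 x m) || sbB (dfB x c.1) c.2) &&
  x.all (fun s => G.any (fun k => memB s k && (sbB k x && (!(sbB x k) &&
    chars.all (fun c => sbB (hsB c.1 x m) k || djB (hsB c.1 x m) k)))))

/-- the singletons -/
def singB (om : List ℕ) : List (List ℕ) := om.map (fun s => [s])

/-- one round of the dynamic programme -/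
def stepG (om : List ℕ) (chars : List (List ℕ × List ℕ)) (fam : List (List ℕ))
    (G : List (List ℕ)) : List (List ℕ) :=
  singB om ++ fam.filter (fun x => fam.any (fun m => condB chars G x m))

/-- the decision procedure -/
def decideB (om : List ℕ) (chars : List (List ℕ × List ℕ)) : Bool :=
  ((0 :: om).foldl (fun G _ => stepG om chars (famC om (chars.map (fun c => c.1))) G)
    (singB om)).any (fun x => sbB om x && sbB x om)

section correctness

variable {ι : Type} {A D V : ι → Finset ℕ} {om : List ℕ} {As : List (List ℕ)}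

theorem flipB_iff {a x m : List ℕ} :
    flipB a x m = true ↔ flipS a.toFinset x.toFinset m.toFinset := by
  simp only [flipB, flipS, Bool.and_eq_true, Bool.or_eq_true, Bool.not_eq_true',
    ← Bool.not_eq_true, djB_iff, sbB_iff]

theorem toFinset_hsB (a x m : List ℕ) :
    (hsB a x m).toFinset = hsS a.toFinset x.toFinset m.toFinset := by
  unfold hsB hsS
  by_cases h1 : flipB a x m = true
  · rw [h1, if_pos (flipB_iff.mp h1)]
    simp [toFinset_dfB]
  · have h1' : ¬ flipS a.toFinset x.toFinset m.toFinset := fun h => h1 (flipB_iff.mpr h)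
    rw [Bool.not_eq_true] at h1
    rw [h1, if_neg h1', cond_false]
    by_cases h2 : sbB a x = true
    · rw [h2, if_pos (sbB_iff.mp h2), cond_true]
    · have h2' : ¬ a.toFinset ⊆ x.toFinset := fun h => h2 (sbB_iff.mpr h)
      rw [Bool.not_eq_true] at h2
      rw [h2, if_neg h2', cond_false]
      by_cases h3 : djB a x = true
      · rw [h3, if_pos (djB_iff.mp h3)]
        simp
      · have h3' : ¬ Disjoint a.toFinset x.toFinset := fun h => h3 (djB_iff.mpr h)
        rw [Bool.not_eq_true] at h3
        rw [h3, if_neg h3']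
        simp [toFinset_dfB]

/-- soundness of a list of pairs -/
def PSound (A V : ι → Finset ℕ) (L : List (List ℕ × List ℕ)) : Prop :=
  ∀ p ∈ L, ∃ y, p.1.toFinset = A y ∧ p.2.toFinset = V y

theorem candB_sound (h : MinSol A D V) (hom : ∀ y, UU A V y ⊆ om.toFinset) {x y : ι}
    {a : List ℕ} (ha : a.toFinset = A x) {p : List ℕ × List ℕ} (hp1 : p.1.toFinset = A y)
    (hp2 : p.2.toFinset = V y) {v : List ℕ} (hv : v ∈ candB om a p) : v.toFinset = V x := by
  have hun : (unB om p.1 p.2).toFinset = UU A V y := by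
    rw [toFinset_unB, hp1, hp2]
    exact Finset.inter_eq_right.mpr (hom y)
  have hp2' : (unB om p.2 p.2).toFinset = V y := by
    rw [toFinset_unB, hp2, Finset.union_self]
    exact Finset.inter_eq_right.mpr
      (Finset.Subset.trans (fun z hz => mem_UU.mpr (Or.inr hz)) (hom y))
  unfold candB at hv
  by_cases h1 : ovB a (unB om p.1 p.2) = true
  · rw [h1, cond_true, List.mem_singleton] at hv
    rw [ovB_iff, ha, hun] at h1
    rw [hv, toFinset_dfB, hun, ha]
    exact (h.rigid (clU A V y) h1).symm
  · rw [Bool.not_eq_true] at h1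
    rw [h1, cond_false] at hv
    by_cases h2 : ovB a (unB om p.2 p.2) = true
    · rw [h2, cond_true, List.mem_singleton] at hv
      rw [ovB_iff, ha, hp2'] at h2
      rw [hv, toFinset_dfB, hp2', ha]
      exact (h.rigid (clV A V y) h2).symm
    · rw [Bool.not_eq_true] at h2
      rw [h2, cond_false] at hv
      simp at hv

theorem deriveB_mem {om : List ℕ} {L : List (List ℕ × List ℕ)} {a : List ℕ}
    {q : List ℕ × List ℕ} (hq : q ∈ deriveB om L a) :
    q.1 = a ∧ ∃ p ∈ L, q.2 ∈ candB om a p := by
  unfold deriveB at hq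
  rw [List.mem_map] at hq
  obtain ⟨v, hv, rfl⟩ := hq
  rw [Option.mem_toList, List.head?_eq_some_iff] at hv
  obtain ⟨ys, hys⟩ := hv
  have : v ∈ L.flatMap (fun p => candB om a p) := by rw [hys]; exact List.mem_cons_self
  rw [List.mem_flatMap] at this
  exact ⟨rfl, this⟩

theorem deriveB_exists {om : List ℕ} {L : List (List ℕ × List ℕ)} {a : List ℕ}
    {p : List ℕ × List ℕ} (hp : p ∈ L) (hc : candB om a p ≠ []) : ∃ q, q ∈ deriveB om L a := by
  unfold deriveB
  cases hL : L.flatMap (fun p => candB om a p) with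
  | nil =>
    rw [List.flatMap_eq_nil_iff] at hL
    exact absurd (hL p hp) hc
  | cons v l =>
    exact ⟨(a, v), by simp⟩

theorem stepC_sound (h : MinSol A D V) (hom : ∀ y, UU A V y ⊆ om.toFinset)
    (hAs : ∀ a ∈ As, ∃ x, a.toFinset = A x) {L : List (List ℕ × List ℕ)} (hL : PSound A V L) :
    PSound A V (stepC om As L) := by
  intro q hq
  unfold stepC at hq
  rw [List.mem_append, List.mem_flatMap] at hq
  rcases hq with hq | ⟨a, ha, hq⟩
  · exact hL q hq
  · obtain ⟨h1, p, hp, h2⟩ := deriveB_mem hq
    obtain ⟨x, hx⟩ := hAs a ha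
    obtain ⟨y, hy1, hy2⟩ := hL p hp
    exact ⟨x, h1 ▸ hx, candB_sound h hom hx hy1 hy2 h2⟩

/-- a character is covered by the list of pairs -/
def Cov (A V : ι → Finset ℕ) (L : List (List ℕ × List ℕ)) (x : ι) : Prop :=
  ∃ p ∈ L, p.1.toFinset = A x ∧ p.2.toFinset = V x

theorem stepC_cov (h : MinSol A D V) (hom : ∀ y, UU A V y ⊆ om.toFinset)
    (hAs' : ∀ x, ∃ a ∈ As, a.toFinset = A x) {L : List (List ℕ × List ℕ)} (hL : PSound A V L)
    {x y : ι} (hxy : Link V A x y) (hy : Cov A V L y) : Cov A V (stepC om As L) x := by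
  obtain ⟨p, hp, hp1, hp2⟩ := hy
  obtain ⟨a, ha, hax⟩ := hAs' x
  have hun : (unB om p.1 p.2).toFinset = UU A V y := by
    rw [toFinset_unB, hp1, hp2]
    exact Finset.inter_eq_right.mpr (hom y)
  have hp2' : (unB om p.2 p.2).toFinset = V y := by
    rw [toFinset_unB, hp2, Finset.union_self]
    exact Finset.inter_eq_right.mpr
      (Finset.Subset.trans (fun z hz => mem_UU.mpr (Or.inr hz)) (hom y))
  have hc : candB om a p ≠ [] := by
    have hh : Ov (A x) (UU A V y) ∨ Ov (A x) (V y) := by
      have d1 := h.dAV x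
      rcases hxy with ho | ho
      · left
        obtain ⟨v0, hv0⟩ := ho.ne_left
        obtain ⟨u, hu1, hu2⟩ := Finset.exists_of_ssubset ho.2.2.1
        obtain ⟨w, hw1, hw2⟩ := Finset.exists_of_ssubset ho.2.2.2
        have hu3 := ho.2.2.2.1 hu1
        rw [mem_UU] at hu3 hw1
        refine ⟨⟨u, ?_, hu1⟩, ⟨w, ?_, hw2⟩, ⟨v0, ho.2.2.1.1 hv0, fun h' => d1 v0 h' hv0⟩⟩
        · tauto
        · rcases hw1 with hw1 | hw1
          · exact hw1
          · exact absurd (ho.2.2.1.1 hw1) hw2
      · right
        obtain ⟨v0, hv0⟩ := ho.ne_right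
        obtain ⟨u, hu1, hu2⟩ := Finset.exists_of_ssubset ho.2.1
        obtain ⟨w, hw1, hw2⟩ := Finset.exists_of_ssubset ho.2.2.1
        have hu3 := ho.2.2.1.1 hu1
        rw [mem_UU] at hu3 hw1
        refine ⟨⟨u, ?_, hu1⟩, ⟨w, ?_, hw2⟩, ⟨v0, ho.2.1.1 hv0, fun h' => d1 v0 h' hv0⟩⟩
        · tauto
        · rcases hw1 with hw1 | hw1
          · exact hw1
          · exact absurd (ho.2.1.1 hw1) hw2
    unfold candB
    by_cases h1 : ovB a (unB om p.1 p.2) = true
    · rw [h1]; simp
    · have h1' := h1
      rw [Bool.not_eq_true] at h1'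
      rw [h1', cond_false]
      rw [ovB_iff, hax, hun] at h1
      have h2 : ovB a (unB om p.2 p.2) = true := by
        rw [ovB_iff, hax, hp2']
        tauto
      rw [h2]; simp
  obtain ⟨q, hq⟩ := deriveB_exists hp hc
  obtain ⟨h1, p', hp', h2⟩ := deriveB_mem hq
  obtain ⟨y', hy1, hy2⟩ := hL p' hp'
  refine ⟨q, ?_, h1 ▸ hax, candB_sound h hom hax hy1 hy2 h2⟩
  unfold stepC
  rw [List.mem_append, List.mem_flatMap]
  exact Or.inr ⟨a, ha, hq⟩

theorem stepC_mono {L : List (List ℕ × List ℕ)} {x : ι} (hx : Cov A V L x) :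
    Cov A V (stepC om As L) x := by
  obtain ⟨p, hp, h⟩ := hx
  exact ⟨p, by unfold stepC; exact List.mem_append_left _ hp, h⟩

theorem foldl_const {α β : Type} (f : α → α) (l : List β) (a : α) :
    l.foldl (fun L _ => f L) a = f^[l.length] a := by
  induction l generalizing a with
  | nil => rfl
  | cons b l ih => rw [List.foldl_cons, ih]; rfl

theorem closC_cov [Fintype ι] (h : MinSol A D V) (hom : ∀ y, UU A V y ⊆ om.toFinset)
    (hAs : ∀ a ∈ As, ∃ x, a.toFinset = A x)
    (hAs' : ∀ x, ∃ a ∈ As, a.toFinset = A x) (hlen : Fintype.card ι ≤ As.length)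
    {j : ι} {a b : List ℕ} (ha : a.toFinset = A j) (hb : V j = b.toFinset \ A j) {x : ι}
    (hx : Relation.ReflTransGen (Link V A) x j) : Cov A V (closC om As a b) x := by
  classical
  unfold closC
  rw [foldl_const (fun L => stepC om As L)]
  have hseed : PSound A V [(a, dfB b a)] := by
    intro p hp
    rw [List.mem_singleton] at hp
    subst hp
    exact ⟨j, ha, by rw [toFinset_dfB, hb, ha]⟩
  have hsound : ∀ t, PSound A V ((fun L => stepC om As L)^[t] [(a, dfB b a)]) := by
    intro t
    induction t with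
    | zero => exact hseed
    | succ t ih =>
      rw [Function.iterate_succ_apply']
      exact stepC_sound h hom hAs ih
  let G : SimpleGraph ι := SimpleGraph.fromRel (Link V A)
  have hadj : ∀ {u v : ι}, Link V A u v → G.Adj u v := by
    intro u v huv
    rw [SimpleGraph.fromRel_adj]
    refine ⟨?_, Or.inl huv⟩
    rintro rfl
    rcases huv with ho | ho
    · exact ho.2.1.2 (Finset.Subset.refl _)
    · exact ho.2.1.2 (Finset.Subset.refl _)
  have hadj' : ∀ {u v : ι}, G.Adj u v → Link V A u v := by
    intro u v huv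
    rw [SimpleGraph.fromRel_adj] at huv
    rcases huv.2 with hh | hh
    · exact hh
    · exact hh.symm
  have hreach' : ∀ u v, Relation.ReflTransGen (Link V A) u v → G.Reachable u v := by
    intro u v huv
    induction huv with
    | refl => exact SimpleGraph.Reachable.refl _
    | tail _ hbc ih => exact ih.trans (hadj hbc).reachable
  have hreach := hreach' x j hx
  have hmono : ∀ t t' u, t ≤ t' → Cov A V ((fun L => stepC om As L)^[t] [(a, dfB b a)]) u →
      Cov A V ((fun L => stepC om As L)^[t'] [(a, dfB b a)]) u := by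
    intro t t' u htt' hu
    induction t', htt' using Nat.le_induction with
    | base => exact hu
    | succ t' _ ih =>
      rw [Function.iterate_succ_apply']
      exact stepC_mono ih
  have hseedc : Cov A V [(a, dfB b a)] j :=
    ⟨(a, dfB b a), List.mem_singleton.mpr rfl, ha, by rw [toFinset_dfB, hb, ha]⟩
  have hwalk : ∀ {u v : ι} (p : G.Walk u v), v = j →
      Cov A V ((fun L => stepC om As L)^[p.length] [(a, dfB b a)]) u := by
    intro u v p
    induction p with
    | nil =>
      rintro rfl
      exact hseedc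
    | @cons u w v huw p ih =>
      intro hv
      rw [SimpleGraph.Walk.length_cons, Function.iterate_succ_apply']
      exact stepC_cov h hom hAs' (hsound _) (hadj' huw) (ih hv)
  obtain ⟨p, hp⟩ := hreach.exists_isPath
  refine hmono _ _ x ?_ (hwalk p rfl)
  exact hp.length_lt.le.trans hlen

/-- All clusters of a minimal solution belong to the family. -/
theorem famC_complete [Fintype ι] (h : MinSol A D V) (hom : ∀ y, UU A V y ⊆ om.toFinset)
    (hAs : ∀ a ∈ As, ∃ x, a.toFinset = A x)
    (hAs' : ∀ x, ∃ a ∈ As, a.toFinset = A x) (hlen : Fintype.card ι ≤ As.length)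
    (X : Finset ℕ) (hX : Cl A V X) : ∃ x ∈ famC om As, x.toFinset = X := by
  obtain ⟨i, hi⟩ := hX
  by_cases hVi : ∃ v, v ∈ V i
  · obtain ⟨j, hij, l, hl1, hl2⟩ := h.structure i hVi
    obtain ⟨a, ha, haj⟩ := hAs' j
    obtain ⟨b, hb, hbl⟩ := hAs' l
    obtain ⟨p, hp, hp1, hp2⟩ := closC_cov h hom hAs hAs' hlen haj (b := b) (by rw [hl2, hbl]) hij
    have hmem : ∀ z, z ∈ [p.2, unB om p.1 p.2] → z ∈ famC om As := by
      intro z hz
      unfold famC
      refine List.mem_cons_of_mem _ (List.mem_cons_of_mem _ (List.mem_append_right _ ?_))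
      rw [List.mem_flatMap]
      refine ⟨a, ha, ?_⟩
      rw [List.mem_flatMap]
      refine ⟨b, hb, ?_⟩
      rw [List.mem_flatMap]
      exact ⟨p, hp, hz⟩
    rcases hi with rfl | rfl
    · refine ⟨unB om p.1 p.2, hmem _ (by simp), ?_⟩
      rw [toFinset_unB, hp1, hp2]
      exact Finset.inter_eq_right.mpr (hom i)
    · exact ⟨p.2, hmem _ (by simp), hp2⟩
  · have hV0 : V i = ∅ := by
      push Not at hVi
      exact Finset.eq_empty_of_forall_notMem hVi
    rcases hi with rfl | rfl
    · obtain ⟨a, ha, hai⟩ := hAs' i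
      refine ⟨a, ?_, by rw [hai, UU, hV0, Finset.union_empty]⟩
      unfold famC
      exact List.mem_cons_of_mem _ (List.mem_cons_of_mem _ (List.mem_append_left _ ha))
    · exact ⟨[], by unfold famC; exact List.mem_cons_self, by rw [hV0]; rfl⟩

/-- The lists of the dynamic programme compute `Good`. -/
theorem stepG_iff {chars : List (List ℕ × List ℕ)} {fam : List (List ℕ)}
    (hC : ∀ P : Finset ℕ → Finset ℕ → Prop,
      (∀ c ∈ chars, P c.1.toFinset c.2.toFinset) ↔ ∀ j, P (A j) (D j))
    (hfam : [] ∈ fam) (t : ℕ) (X : Finset ℕ) :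
    (∃ x ∈ (fun G => stepG om chars fam G)^[t] (singB om), x.toFinset = X) ↔
      Good om.toFinset A D (fun X => ∃ x ∈ fam, x.toFinset = X) t X := by
  have hsing : ∀ X : Finset ℕ, (∃ x ∈ singB om, x.toFinset = X) ↔ ∃ x ∈ om.toFinset, X = {x} := by
    intro X
    unfold singB
    constructor
    · rintro ⟨x, hx, rfl⟩
      rw [List.mem_map] at hx
      obtain ⟨s, hs, rfl⟩ := hx
      exact ⟨s, List.mem_toFinset.mpr hs, by simp⟩
    · rintro ⟨s, hs, rfl⟩
      exact ⟨[s], List.mem_map.mpr ⟨s, List.mem_toFinset.mp hs, rfl⟩, by simp⟩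
  induction t generalizing X with
  | zero => exact hsing X
  | succ t ih =>
    rw [Function.iterate_succ_apply']
    have hcond : ∀ x m : List ℕ,
        condB chars ((fun G => stepG om chars fam G)^[t] (singB om)) x m = true ↔
        ((∀ j, flipS (A j) x.toFinset m.toFinset → x.toFinset \ A j ⊆ D j) ∧
        ∀ s ∈ x.toFinset, ∃ K, Good om.toFinset A D (fun X => ∃ x ∈ fam, x.toFinset = X) t K ∧
          s ∈ K ∧ K ⊂ x.toFinset ∧ HC A x.toFinset m.toFinset K) := by
      intro x m
      unfold condB
      rw [Bool.and_eq_true]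
      refine and_congr ?_ ?_
      · rw [List.all_eq_true, ← hC (fun a d => flipS a x.toFinset m.toFinset →
          x.toFinset \ a ⊆ d)]
        refine forall_congr' (fun c => forall_congr' (fun _ => ?_))
        rw [Bool.or_eq_true, Bool.not_eq_true', ← Bool.not_eq_true, flipB_iff, sbB_iff,
          toFinset_dfB]
        tauto
      · rw [List.all_eq_true]
        constructor
        · intro hh s hs
          have h1 := hh s (List.mem_toFinset.mp hs)
          rw [List.any_eq_true] at h1
          obtain ⟨k, hk, h2⟩ := h1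
          simp only [Bool.and_eq_true, Bool.not_eq_true', ← Bool.not_eq_true, memB_iff,
            sbB_iff, List.all_eq_true, Bool.or_eq_true, djB_iff, toFinset_hsB] at h2
          obtain ⟨h3, h4, h5, h6⟩ := h2
          refine ⟨k.toFinset, (ih _).mp ⟨k, hk, rfl⟩, h3, ⟨h4, h5⟩, ?_⟩
          exact (hC (fun a _ => hsS a x.toFinset m.toFinset ⊆ k.toFinset ∨
            Disjoint (hsS a x.toFinset m.toFinset) k.toFinset)).mp h6
        · intro hh s hs
          obtain ⟨K, hK1, hK2, hK3, hK4⟩ := hh s (List.mem_toFinset.mpr hs)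
          obtain ⟨k, hk, rfl⟩ := (ih _).mpr hK1
          rw [List.any_eq_true]
          refine ⟨k, hk, ?_⟩
          simp only [Bool.and_eq_true, Bool.not_eq_true', ← Bool.not_eq_true, memB_iff,
            sbB_iff, List.all_eq_true, Bool.or_eq_true, djB_iff, toFinset_hsB]
          refine ⟨hK2, hK3.1, hK3.2, ?_⟩
          exact (hC (fun a _ => hsS a x.toFinset m.toFinset ⊆ k.toFinset ∨
            Disjoint (hsS a x.toFinset m.toFinset) k.toFinset)).mpr hK4
    have hsplit : (∃ x ∈ stepG om chars fam ((fun G => stepG om chars fam G)^[t] (singB om)),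
        x.toFinset = X) ↔ ((∃ x ∈ singB om, x.toFinset = X) ∨
        (∃ x ∈ fam, ∃ m ∈ fam, condB chars ((fun G => stepG om chars fam G)^[t] (singB om)) x m
          = true ∧ x.toFinset = X)) := by
      unfold stepG
      constructor
      · rintro ⟨x, hx, hX⟩
        rw [List.mem_append] at hx
        rcases hx with hx | hx
        · exact Or.inl ⟨x, hx, hX⟩
        · rw [List.mem_filter, List.any_eq_true] at hx
          obtain ⟨hx1, m, hm, hc⟩ := hx
          exact Or.inr ⟨x, hx1, m, hm, hc, hX⟩
      · rintro (⟨x, hx, hX⟩ | ⟨x, hx, m, hm, hc, hX⟩)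
        · exact ⟨x, List.mem_append_left _ hx, hX⟩
        · refine ⟨x, List.mem_append_right _ ?_, hX⟩
          rw [List.mem_filter, List.any_eq_true]
          exact ⟨hx, m, hm, hc⟩
    rw [hsplit, hsing]
    unfold Good
    refine or_congr Iff.rfl ?_
    constructor
    · rintro ⟨x, hx, m, hm, hc, rfl⟩
      exact ⟨⟨x, hx, rfl⟩, m.toFinset, Or.inr ⟨m, hm, rfl⟩, (hcond x m).mp hc⟩
    · rintro ⟨⟨x, hx, rfl⟩, M, hM, hc⟩
      have hM' : ∃ m ∈ fam, m.toFinset = M := by
        rcases hM with rfl | hM
        · exact ⟨[], hfam, rfl⟩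
        · exact hM
      obtain ⟨m, hm, rfl⟩ := hM'
      exact ⟨x, hx, m, hm, (hcond x m).mpr hc, rfl⟩

/-- Correctness of the decision procedure. -/
theorem decideB_iff [Fintype ι] {chars : List (List ℕ × List ℕ)}
    (hC : ∀ P : Finset ℕ → Finset ℕ → Prop,
      (∀ c ∈ chars, P c.1.toFinset c.2.toFinset) ↔ ∀ j, P (A j) (D j))
    (hA : ∀ j, A j ⊆ om.toFinset) (hD : ∀ j, D j ⊆ om.toFinset)
    (hAD : ∀ j, Disjoint (A j) (D j)) (hlen : Fintype.card ι ≤ chars.length) :
    decideB om chars = true ↔ ∃ V, Sol A D V := by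
  set fam := famC om (chars.map (fun c => c.1)) with hfam
  have hAs : ∀ a ∈ chars.map (fun c => c.1), ∃ x, a.toFinset = A x := by
    have := (hC (fun a _ => ∃ x, a = A x)).mpr (fun j => ⟨j, rfl⟩)
    intro a ha
    rw [List.mem_map] at ha
    obtain ⟨c, hc, rfl⟩ := ha
    exact this c hc
  have hAs' : ∀ x, ∃ a ∈ chars.map (fun c => c.1), a.toFinset = A x := by
    have := (hC (fun a _ => ∃ a' ∈ chars.map (fun c => c.1), a'.toFinset = a)).mp
      (fun c hc => ⟨c.1, List.mem_map.mpr ⟨c, hc, rfl⟩, rfl⟩)
    exact this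
  have key := good_iff (Om := om.toFinset) (A := A) (D := D)
    (Fam := fun X => ∃ x ∈ fam, x.toFinset = X) hA hD hAD
    (fun V hV X hX => famC_complete hV
      (fun y => Finset.union_subset (hA y) ((hV.sub y).trans (hD y))) hAs hAs'
      (by rw [List.length_map]; exact hlen) X hX)
    ⟨om, by rw [hfam]; unfold famC; exact List.mem_cons_of_mem _ List.mem_cons_self, rfl⟩
    om.length (List.toFinset_card_le om)
  rw [← key, ← stepG_iff hC (by rw [hfam]; unfold famC; exact List.mem_cons_self)]
  unfold decideB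
  rw [foldl_const (fun G => stepG om chars fam G), List.any_eq_true, List.length_cons]
  refine exists_congr (fun x => and_congr_right (fun _ => ?_))
  rw [Bool.and_eq_true, sbB_iff, sbB_iff]
  constructor
  · rintro ⟨h1, h2⟩; exact Finset.Subset.antisymm h2 h1
  · intro e; rw [e]; exact ⟨Finset.Subset.refl _, Finset.Subset.refl _⟩

end correctness

end Pool.Agent.Lib.MP_9ed008_lc
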