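import Pool.Agent.Lib.MP_9ed008_lc.Structure

/-!
# The dynamic programme on a family of candidate clusters
-/

namespace Pool.Agent.Lib.MP_9ed008_lc

variable {S ι : Type*} [DecidableEq S]

/-- The character with gain set `a` has gain cluster `X`, if `M` is a maximal cluster inside `X`. -/
def flipS (a X M : Finset S) : Prop :=
  a ⊆ X ∧ ((¬ Disjoint a M ∧ ¬ a ⊆ M) ∨ X ⊆ a)

instance (a X M : Finset S) : Decidable (flipS a X M) := by unfold flipS; infer_instance

/-- The set forced to lie inside one part. -/
def hsS (a X M : Finset S) : Finset S :=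
  if flipS a X M then X \ a else if a ⊆ X then a else if Disjoint a X then ∅ else X \ a

/-- `K` respects all forced sets. -/
def HC (A : ι → Finset S) (X M K : Finset S) : Prop :=
  ∀ j, hsS (A j) X M ⊆ K ∨ Disjoint (hsS (A j) X M) K

/-- The dynamic programme. -/
def Good (Om : Finset S) (A D : ι → Finset S) (Fam : Finset S → Prop) : ℕ → Finset S → Prop
  | 0, X => ∃ x ∈ Om, X = {x}
  | t + 1, X => (∃ x ∈ Om, X = {x}) ∨ (Fam X ∧ ∃ M, (M = ∅ ∨ Fam M) ∧
      (∀ j, flipS (A j) X M → X \ A j ⊆ D j) ∧
      ∀ x ∈ X, ∃ K, Good Om A D Fam t K ∧ x ∈ K ∧ K ⊂ X ∧ HC A X M K)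

/-- The family of sets that must be laminar in a solution inside `X`. -/
def FamIn (A V : ι → Finset S) (X Z : Finset S) : Prop :=
  (∃ j, A j ⊆ X ∧ (Z = UU A V j ∨ Z = V j)) ∨
  (∃ j, ¬ A j ⊆ X ∧ ¬ Disjoint (A j) X ∧ Z = X \ A j)

/-- Solutions inside `X`. -/
def IsSolIn (A D : ι → Finset S) (X : Finset S) (V : ι → Finset S) : Prop :=
  (∀ j, A j ⊆ X → V j ⊆ X ∧ V j ⊆ D j) ∧
  ∀ Z Z', FamIn A V X Z → FamIn A V X Z' → Lam Z Z'

theorem IsSolIn.fam_sub {A D V : ι → Finset S} {X Z : Finset S} (h : IsSolIn A D X V)
    (hZ : FamIn A V X Z) : Z ⊆ X := by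
  rcases hZ with ⟨j, hj, rfl | rfl⟩ | ⟨j, _, _, rfl⟩
  · exact Finset.union_subset hj (h.1 j hj).1
  · exact (h.1 j hj).1
  · exact Finset.sdiff_subset

theorem hsS_sub (a X M : Finset S) : hsS a X M ⊆ X := by
  unfold hsS
  split
  · exact Finset.sdiff_subset
  · split
    · assumption
    · split
      · exact Finset.empty_subset _
      · exact Finset.sdiff_subset

/-- Restriction of a solution to a closed part. -/
theorem restrict {A D V : ι → Finset S} {X M K C : Finset S} (h : IsSolIn A D K V)
    (hCK : C ⊆ K) (hKX : K ⊂ X) (hC : HC A X M C) :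
    IsSolIn A D C (fun j => V j ∩ C) := by
  have key : ∀ Z, FamIn A (fun j => V j ∩ C) C Z → Z = ∅ ∨ ∃ Z0, FamIn A V K Z0 ∧ Z = Z0 ∩ C := by
    rintro Z (⟨j, hj, hZ⟩ | ⟨j, hj1, hj2, hZ⟩)
    · right
      rcases hZ with hZ | hZ
      · refine ⟨UU A V j, Or.inl ⟨j, hj.trans hCK, Or.inl rfl⟩, ?_⟩
        rw [hZ]
        ext t
        simp only [UU, Finset.mem_union, Finset.mem_inter]
        constructor
        · rintro (ht | ht)
          · exact ⟨Or.inl ht, hj ht⟩
          · exact ⟨Or.inr ht.1, ht.2⟩
        · rintro ⟨ht | ht, ht2⟩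
          · exact Or.inl ht
          · exact Or.inr ⟨ht, ht2⟩
      · exact ⟨V j, Or.inl ⟨j, hj.trans hCK, Or.inr rfl⟩, hZ⟩
    · by_cases hAK : A j ⊆ K
      · left
        have hAX : A j ⊆ X := hAK.trans hKX.1
        by_cases hf : flipS (A j) X M
        · have hh := hC j
          rw [hsS, if_pos hf] at hh
          rcases hh with hh | hh
          · exfalso
            apply hKX.2
            intro t ht
            by_cases htA : t ∈ A j
            · exact hAK htA
            · exact hCK (hh (Finset.mem_sdiff.mpr ⟨ht, htA⟩))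
          · rw [hZ, Finset.sdiff_eq_empty_iff_subset]
            intro t ht
            by_contra htA
            exact Finset.disjoint_left.mp hh
              (Finset.mem_sdiff.mpr ⟨hKX.1 (hCK ht), htA⟩) ht
        · have hh := hC j
          rw [hsS, if_neg hf, if_pos hAX] at hh
          rcases hh with hh | hh
          · exact absurd hh hj1
          · exact absurd hh hj2
      · right
        refine ⟨K \ A j, Or.inr ⟨j, hAK, fun hd => hj2 (Finset.disjoint_of_subset_right hCK hd), rfl⟩,
          ?_⟩
        rw [hZ]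
        ext t
        simp only [Finset.mem_sdiff, Finset.mem_inter]
        constructor
        · rintro ⟨h1, h2⟩; exact ⟨⟨hCK h1, h2⟩, h1⟩
        · rintro ⟨⟨_, h2⟩, h3⟩; exact ⟨h3, h2⟩
  refine ⟨fun j hj => ⟨Finset.inter_subset_right,
    Finset.inter_subset_left.trans (h.1 j (hj.trans hCK)).2⟩, fun Z Z' hZ hZ' => ?_⟩
  rcases key Z hZ with rfl | ⟨Z0, h0, rfl⟩
  · exact Or.inl (Finset.disjoint_empty_left _)
  · rcases key Z' hZ' with rfl | ⟨Z0', h0', rfl⟩
    · exact Or.inl (Finset.disjoint_empty_right _)
    · rcases h.2 _ _ h0 h0' with g | g | g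
      · left
        exact Finset.disjoint_of_subset_left Finset.inter_subset_left
          (Finset.disjoint_of_subset_right Finset.inter_subset_left g)
      · right; left; exact Finset.inter_subset_inter_right g
      · right; right; exact Finset.inter_subset_inter_right g

open Classical in
/-- The part of `x`. -/
noncomputable def comp (A : ι → Finset S) (X M : Finset S) (x : S) : Finset S :=
  X.filter (fun y => ∀ Z, HC A X M Z → (x ∈ Z ↔ y ∈ Z))

theorem mem_comp {A : ι → Finset S} {X M : Finset S} {x y : S} :
    y ∈ comp A X M x ↔ y ∈ X ∧ ∀ Z, HC A X M Z → (x ∈ Z ↔ y ∈ Z) := by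
  simp [comp]

theorem comp_sub {A : ι → Finset S} {X M : Finset S} {x : S} : comp A X M x ⊆ X := fun _ hy =>
  (mem_comp.mp hy).1

theorem self_mem_comp {A : ι → Finset S} {X M : Finset S} {x : S} (hx : x ∈ X) :
    x ∈ comp A X M x := mem_comp.mpr ⟨hx, fun _ _ => Iff.rfl⟩

theorem comp_eq {A : ι → Finset S} {X M : Finset S} {x y : S} (hy : y ∈ comp A X M x) :
    comp A X M y = comp A X M x := by
  rw [mem_comp] at hy
  ext z
  rw [mem_comp, mem_comp]
  constructor
  · rintro ⟨h1, h2⟩
    exact ⟨h1, fun Z hZ => (hy.2 Z hZ).trans (h2 Z hZ)⟩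
  · rintro ⟨h1, h2⟩
    exact ⟨h1, fun Z hZ => (hy.2 Z hZ).symm.trans (h2 Z hZ)⟩

theorem comp_HC (A : ι → Finset S) (X M : Finset S) (x : S) : HC A X M (comp A X M x) := by
  intro j
  by_cases hd : Disjoint (hsS (A j) X M) (comp A X M x)
  · exact Or.inr hd
  · left
    rw [Finset.not_disjoint_iff] at hd
    obtain ⟨y, hy1, hy2⟩ := hd
    rw [mem_comp] at hy2
    intro z hz
    rw [mem_comp]
    refine ⟨hsS_sub _ _ _ hz, fun Z hZ => (hy2.2 Z hZ).trans ?_⟩
    rcases hZ j with hh | hh
    · exact ⟨fun _ => hh hz, fun _ => hh hy1⟩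
    · exact ⟨fun h => absurd h (Finset.disjoint_left.mp hh hy1),
        fun h => absurd h (Finset.disjoint_left.mp hh hz)⟩

theorem hs_sub_comp {A : ι → Finset S} {X M : Finset S} {x : S} {j : ι}
    (hx : x ∈ hsS (A j) X M) : hsS (A j) X M ⊆ comp A X M x := by
  rcases comp_HC A X M x j with h | h
  · exact h
  · exact absurd (self_mem_comp (hsS_sub _ _ _ hx)) (Finset.disjoint_left.mp h hx)

theorem comp_sub_of_mem {A : ι → Finset S} {X M K : Finset S} {x : S} (hK : HC A X M K)
    (hx : x ∈ K) : comp A X M x ⊆ K := by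
  intro y hy
  exact ((mem_comp.mp hy).2 K hK).mp hx

open Classical in
/-- Gluing. -/
theorem glue {A D : ι → Finset S} {X M : Finset S}
    (hflip : ∀ j, flipS (A j) X M → X \ A j ⊆ D j)
    (hK : ∀ x ∈ X, ∃ K, (∃ V, IsSolIn A D K V) ∧ x ∈ K ∧ K ⊂ X ∧ HC A X M K) :
    ∃ V, IsSolIn A D X V := by
  have hcs : ∀ x ∈ X, ∃ V, IsSolIn A D (comp A X M x) V := by
    intro x hx
    obtain ⟨K, ⟨V, hV⟩, hxK, hKX, hHC⟩ := hK x hx
    exact ⟨_, restrict hV (comp_sub_of_mem hHC hxK) hKX (comp_HC A X M x)⟩
  have hprop : ∀ x ∈ X, ¬ X ⊆ comp A X M x := by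
    intro x hx hsub
    obtain ⟨K, _, hxK, hKX, hHC⟩ := hK x hx
    exact hKX.2 (hsub.trans (comp_sub_of_mem hHC hxK))
  let VV : Finset S → ι → Finset S := fun C => if h : ∃ V, IsSolIn A D C V then h.choose
    else fun _ => ∅
  have hVV : ∀ x ∈ X, IsSolIn A D (comp A X M x) (VV (comp A X M x)) := by
    intro x hx
    have h := hcs x hx
    simp only [VV, dif_pos h]
    exact h.choose_spec
  let V : ι → Finset S := fun j => if flipS (A j) X M then X \ A j else
    if h : ∃ x, x ∈ A j then VV (comp A X M h.choose) j else ∅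
  have hVf : ∀ j, flipS (A j) X M → V j = X \ A j := fun j hj => by
    simp only [V, if_pos hj]
  have hVn : ∀ j, A j ⊆ X → ¬ flipS (A j) X M → ∀ x ∈ A j, A j ⊆ comp A X M x ∧
      V j = VV (comp A X M x) j := by
    intro j hj hf x hx
    have hh : ∃ x, x ∈ A j := ⟨x, hx⟩
    have hhs : hsS (A j) X M = A j := by rw [hsS, if_neg hf, if_pos hj]
    have h1 : A j ⊆ comp A X M x := by
      have := hs_sub_comp (A := A) (X := X) (M := M) (x := x) (j := j) (by rw [hhs]; exact hx)
      rwa [hhs] at this
    refine ⟨h1, ?_⟩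
    simp only [V, if_neg hf, dif_pos hh]
    rw [comp_eq (h1 hh.choose_spec)]
  have hVe : ∀ j, ¬ flipS (A j) X M → A j = ∅ → V j = ∅ := by
    intro j hf hj
    have hh : ¬ ∃ x, x ∈ A j := by rw [hj]; simp
    simp only [V, if_neg hf, dif_neg hh]
  -- the overlap case
  have hov : ∀ j, hsS (A j) X M = X \ A j → (A j ⊆ X ∨ ¬ A j ⊆ X ∧ ¬ Disjoint (A j) X) →
      X \ A j = ∅ ∨ ∃ x ∈ X, X \ A j ⊆ comp A X M x ∧
        (X \ A j = comp A X M x ∨ FamIn A (VV (comp A X M x)) (comp A X M x) (X \ A j)) := by
    intro j hj hj2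
    by_cases he : X \ A j = ∅
    · exact Or.inl he
    · right
      obtain ⟨x, hx⟩ := Finset.nonempty_iff_ne_empty.mpr he
      have hxX := (Finset.mem_sdiff.mp hx).1
      have hsub : X \ A j ⊆ comp A X M x := by
        have := hs_sub_comp (A := A) (X := X) (M := M) (x := x) (j := j) (by rw [hj]; exact hx)
        rwa [hj] at this
      have heq : X \ A j = comp A X M x \ A j := by
        ext t
        constructor
        · intro ht
          exact Finset.mem_sdiff.mpr ⟨hsub ht, (Finset.mem_sdiff.mp ht).2⟩
        · intro ht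
          exact Finset.mem_sdiff.mpr ⟨comp_sub (Finset.mem_sdiff.mp ht).1,
            (Finset.mem_sdiff.mp ht).2⟩
      refine ⟨x, hxX, hsub, ?_⟩
      by_cases hd : Disjoint (A j) (comp A X M x)
      · left
        rw [heq]
        exact Finset.sdiff_eq_self_of_disjoint hd.symm
      · right; right
        refine ⟨j, fun hs => ?_, hd, heq⟩
        apply hprop x hxX
        intro t ht
        by_cases htA : t ∈ A j
        · exact hs htA
        · exact hsub (Finset.mem_sdiff.mpr ⟨ht, htA⟩)
  have key : ∀ Z, FamIn A V X Z → Z = X ∨ Z = ∅ ∨ ∃ x ∈ X, Z ⊆ comp A X M x ∧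
      (Z = comp A X M x ∨ FamIn A (VV (comp A X M x)) (comp A X M x) Z) := by
    rintro Z (⟨j, hj, hZ⟩ | ⟨j, hj1, hj2, hZ⟩)
    · by_cases hf : flipS (A j) X M
      · rcases hZ with hZ | hZ
        · left
          rw [hZ, UU, hVf j hf]
          exact Finset.union_sdiff_of_subset hj
        · rw [hZ, hVf j hf]
          exact Or.inr (hov j (by rw [hsS, if_pos hf]) (Or.inl hj))
      · by_cases he : A j = ∅
        · right; left
          rcases hZ with hZ | hZ
          · rw [hZ, UU, hVe j hf he, he]; simp
          · rw [hZ, hVe j hf he]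
        · obtain ⟨x, hx⟩ := Finset.nonempty_iff_ne_empty.mpr he
          obtain ⟨h1, h2⟩ := hVn j hj hf x hx
          have hF : FamIn A (VV (comp A X M x)) (comp A X M x) Z := by
            left
            refine ⟨j, h1, ?_⟩
            rcases hZ with hZ | hZ
            · left; rw [hZ, UU, h2]; rfl
            · right; rw [hZ, h2]
          exact Or.inr (Or.inr ⟨x, hj hx, (hVV x (hj hx)).fam_sub hF, Or.inr hF⟩)
    · rw [hZ]
      refine Or.inr (hov j ?_ (Or.inr ⟨hj1, hj2⟩))
      rw [hsS, if_neg (fun hf => hj1 hf.1), if_neg hj1, if_neg hj2]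
  refine ⟨V, fun j hj => ?_, fun Z Z' hZ hZ' => ?_⟩
  · by_cases hf : flipS (A j) X M
    · rw [hVf j hf]
      exact ⟨Finset.sdiff_subset, hflip j hf⟩
    · by_cases he : A j = ∅
      · rw [hVe j hf he]; simp
      · obtain ⟨x, hx⟩ := Finset.nonempty_iff_ne_empty.mpr he
        obtain ⟨h1, h2⟩ := hVn j hj hf x hx
        rw [h2]
        have := (hVV x (hj hx)).1 j h1
        exact ⟨this.1.trans comp_sub, this.2⟩
  · have hsubX : ∀ Z, (Z = X ∨ Z = ∅ ∨ ∃ x ∈ X, Z ⊆ comp A X M x ∧
      (Z = comp A X M x ∨ FamIn A (VV (comp A X M x)) (comp A X M x) Z)) → Z ⊆ X := by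
      rintro Z (rfl | rfl | ⟨x, _, hs, _⟩)
      · exact Finset.Subset.refl _
      · exact Finset.empty_subset _
      · exact hs.trans comp_sub
    have kZ := key Z hZ
    have kZ' := key Z' hZ'
    have sZ := hsubX Z kZ
    have sZ' := hsubX Z' kZ'
    rcases kZ with rfl | rfl | ⟨x, hx, hs, hc⟩
    · exact Or.inr (Or.inr sZ')
    · exact Or.inl (Finset.disjoint_empty_left _)
    · rcases kZ' with rfl | rfl | ⟨y, hy, hs', hc'⟩
      · exact Or.inr (Or.inl sZ)
      · exact Or.inl (Finset.disjoint_empty_right _)
      · by_cases hxy : ∃ z, z ∈ comp A X M x ∧ z ∈ comp A X M y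
        · obtain ⟨z, hz1, hz2⟩ := hxy
          have e : comp A X M x = comp A X M y := (comp_eq hz1).symm.trans (comp_eq hz2)
          rw [← e] at hs' hc'
          rcases hc with hc | hc
          · exact Or.inr (Or.inr (hc ▸ hs'))
          · rcases hc' with hc' | hc'
            · exact Or.inr (Or.inl (hc' ▸ hs))
            · exact (hVV x hx).2 _ _ hc hc'
        · left
          rw [Finset.disjoint_left]
          intro z hz hz'
          exact hxy ⟨z, hs hz, hs' hz'⟩

theorem solIn_singleton (A D : ι → Finset S) (x : S) : ∃ V, IsSolIn A D {x} V := by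
  refine ⟨fun _ => ∅, fun j _ => ⟨Finset.empty_subset _, Finset.empty_subset _⟩, ?_⟩
  have key : ∀ Z, FamIn A (fun _ => ∅) {x} Z → Z = ∅ ∨ Z = {x} := by
    intro Z hZ
    have : Z ⊆ {x} := by
      rcases hZ with ⟨j, hj, rfl | rfl⟩ | ⟨j, _, _, rfl⟩
      · simpa [UU] using hj
      · exact Finset.empty_subset _
      · exact Finset.sdiff_subset
    exact Finset.subset_singleton_iff.mp this
  intro Z Z' hZ hZ'
  rcases key Z hZ with rfl | rfl
  · exact Or.inl (Finset.disjoint_empty_left _)
  · rcases key Z' hZ' with rfl | rfl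
    · exact Or.inl (Finset.disjoint_empty_right _)
    · exact Or.inr (Or.inl (Finset.Subset.refl _))

/-- Soundness of the dynamic programme. -/
theorem Good.sound {Om : Finset S} {A D : ι → Finset S} {Fam : Finset S → Prop} {t : ℕ}
    {X : Finset S} (h : Good Om A D Fam t X) : ∃ V, IsSolIn A D X V := by
  induction t generalizing X with
  | zero =>
    obtain ⟨x, _, rfl⟩ := h
    exact solIn_singleton A D x
  | succ t ih =>
    rcases h with ⟨x, _, rfl⟩ | ⟨_, M, _, hflip, hK⟩
    · exact solIn_singleton A D x
    · refine glue hflip (fun x hx => ?_)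
      obtain ⟨K, hK1, hK2, hK3, hK4⟩ := hK x hx
      exact ⟨K, ih hK1, hK2, hK3, hK4⟩

theorem solIn_top {Om : Finset S} {A D V : ι → Finset S} (hA : ∀ j, A j ⊆ Om)
    (h : IsSolIn A D Om V) : Sol A D V := by
  refine ⟨fun j => (h.1 j (hA j)).2, ?_⟩
  rintro X Y ⟨i, hi⟩ ⟨j, hj⟩
  exact h.2 X Y (Or.inl ⟨i, hA i, hi⟩) (Or.inl ⟨j, hA j, hj⟩)

theorem Good.singleton {Om : Finset S} {A D : ι → Finset S} {Fam : Finset S → Prop} {x : S}
    (hx : x ∈ Om) (t : ℕ) : Good Om A D Fam t {x} := by
  cases t with
  | zero => exact ⟨x, hx, rfl⟩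
  | succ t => exact Or.inl ⟨x, hx, rfl⟩

/-- Completeness of the dynamic programme. -/
theorem MinSol.good {Om : Finset S} {A D V : ι → Finset S} {Fam : Finset S → Prop}
    (h : MinSol A D V) (hA : ∀ j, A j ⊆ Om) (hD : ∀ j, D j ⊆ Om)
    (hFam : ∀ X, Cl A V X → Fam X) (hOm : Fam Om) (t : ℕ) :
    ∀ X, (Cl A V X ∨ X = Om) → X.Nonempty → X.card ≤ t + 1 → Good Om A D Fam t X := by
  have hVOm : ∀ j, V j ⊆ Om := fun j => (h.sub j).trans (hD j)
  have hUOm : ∀ j, UU A V j ⊆ Om := fun j => Finset.union_subset (hA j) (hVOm j)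
  have hTOm : ∀ X, (Cl A V X ∨ X = Om) → X ⊆ Om := by
    rintro X (⟨j, rfl | rfl⟩ | rfl)
    · exact hUOm j
    · exact hVOm j
    · exact Finset.Subset.refl _
  have hTFam : ∀ X, (Cl A V X ∨ X = Om) → Fam X := by
    rintro X (hX | rfl)
    · exact hFam X hX
    · exact hOm
  have hTlam : ∀ X Y, (Cl A V X ∨ X = Om) → (Cl A V Y ∨ Y = Om) → Lam X Y := by
    rintro X Y hX hY
    rcases id hX with hX' | hX'
    · rcases id hY with hY' | hY'
      · exact h.lam X Y hX' hY'
      · right; left; rw [hY']; exact hTOm X hX
    · right; right; rw [hX']; exact hTOm Y hY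
  induction t with
  | zero =>
    intro X hX hne hc
    obtain ⟨x, hx⟩ := hne
    refine ⟨x, hTOm X hX hx, ?_⟩
    have : X.card = 1 := le_antisymm hc (Finset.card_pos.mpr ⟨x, hx⟩)
    obtain ⟨y, hy⟩ := Finset.card_eq_one.mp this
    rw [hy] at hx ⊢
    rw [Finset.mem_singleton.mp hx]
  | succ t ih =>
    intro X hX hne hc
    by_cases hsing : ∃ x ∈ Om, X = {x}
    · exact Or.inl hsing
    right
    refine ⟨hTFam X hX, ?_⟩
    -- clusters strictly inside `X`
    let In : Finset S → Prop := fun Y => Cl A V Y ∧ Y.Nonempty ∧ Y ⊂ X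
    have hmaxex : ∀ Y, In Y → ∃ Z, In Z ∧ Y ⊆ Z ∧ ∀ Z', In Z' → Z ⊆ Z' → Z' = Z := by
      intro Y hY
      induction hn : X.card - Y.card using Nat.strong_induction_on generalizing Y with
      | _ n ihn =>
        by_cases hm : ∀ Z', In Z' → Y ⊆ Z' → Z' = Y
        · exact ⟨Y, hY, Finset.Subset.refl _, hm⟩
        · push Not at hm
          obtain ⟨Z', hZ', hle, hneq⟩ := hm
          have h1 : Y.card < Z'.card := Finset.card_lt_card
            (Finset.ssubset_iff_subset_ne.mpr ⟨hle, fun e => hneq e.symm⟩)
          have h2 : Z'.card < X.card := Finset.card_lt_card hZ'.2.2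
          obtain ⟨Z, a, b, c⟩ := ihn (X.card - Z'.card) (by omega) Z' hZ' rfl
          exact ⟨Z, a, hle.trans b, c⟩
    -- children are H-closed as soon as ...
    obtain ⟨M, hM, hMmax⟩ : ∃ M, (M = ∅ ∧ (∀ Y, ¬ In Y) ∨ In M) ∧
        ∀ Z', In Z' → M ⊆ Z' → M.Nonempty → Z' = M := by
      by_cases hex : ∃ Y, In Y
      · obtain ⟨Y, hY⟩ := hex
        obtain ⟨Z, a, b, c⟩ := hmaxex Y hY
        exact ⟨Z, Or.inr a, fun Z' h1 h2 _ => c Z' h1 h2⟩
      · push Not at hex
        exact ⟨∅, Or.inl ⟨rfl, hex⟩, fun Z' h1 _ h3 => absurd h3 (by simp)⟩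
    -- a gain set inside `X` has its gain cluster inside `X`
    have hVe : ∀ j, A j = ∅ → V j = ∅ := fun j hj => h.n1 (fun Y _ => by
      rw [hj]; exact Or.inl (Finset.disjoint_empty_left _))
    have hUX : ∀ j, A j ⊆ X → UU A V j ⊆ X := by
      intro j hj
      by_cases he : A j = ∅
      · rw [UU, hVe j he, he]; simp
      obtain ⟨x0, hx0⟩ := Finset.nonempty_iff_ne_empty.mpr he
      rcases hTlam _ _ (Or.inl (clV A V j)) hX with hh | hh | hh
      · rcases hTlam _ _ (Or.inl (clU A V j)) hX with gg | gg | gg
        · exact absurd (hj hx0) (Finset.disjoint_left.mp gg (mem_UU.mpr (Or.inl hx0)))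
        · exact gg
        · have hXA : X = A j := by
            apply Finset.Subset.antisymm _ hj
            intro x hx
            rcases mem_UU.mp (gg hx) with hh' | hh'
            · exact hh'
            · exact absurd hx (Finset.disjoint_left.mp hh hh')
          have hV : V j = ∅ := by
            apply h.n1
            intro Y hY
            rw [← hXA]
            exact hTlam X Y hX (Or.inl hY)
          rw [UU, hV, hXA]; simp
      · exact Finset.union_subset hj hh
      · exact absurd (hh (hj hx0)) (h.dAV j x0 hx0)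
    -- flipped characters
    have hflip : ∀ j, flipS (A j) X M ↔ (A j ⊆ X ∧ UU A V j = X) := by
      intro j
      constructor
      · rintro ⟨h1, h2⟩
        refine ⟨h1, ?_⟩
        have hU := hUX j h1
        rcases h2 with ⟨h2, h3⟩ | h2
        · rw [Finset.not_disjoint_iff] at h2
          obtain ⟨x, hx1, hx2⟩ := h2
          by_contra hcon
          have hIn : In (UU A V j) := ⟨clU A V j, ⟨x, mem_UU.mpr (Or.inl hx1)⟩,
            Finset.ssubset_iff_subset_ne.mpr ⟨hU, hcon⟩⟩
          rcases hM with ⟨rfl, _⟩ | hM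
          · simp at hx2
          · rcases h.lam _ _ (clU A V j) hM.1 with hh | hh | hh
            · exact Finset.disjoint_left.mp hh (mem_UU.mpr (Or.inl hx1)) hx2
            · exact h3 (fun y hy => hh (mem_UU.mpr (Or.inl hy)))
            · have := hMmax _ hIn hh hM.2.1
              exact h3 (fun y hy => this ▸ mem_UU.mpr (Or.inl hy))
        · exact Finset.Subset.antisymm hU (h2.trans (fun y hy => mem_UU.mpr (Or.inl hy)))
      · rintro ⟨h1, h2⟩
        refine ⟨h1, ?_⟩
        by_cases hV : V j = ∅
        · right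
          rw [← h2, UU, hV]; simp
        · left
          have hA0 : A j ≠ ∅ := fun he => hV (hVe j he)
          obtain ⟨x0, hx0⟩ := Finset.nonempty_iff_ne_empty.mpr hA0
          have hVX : In (V j) := by
            refine ⟨clV A V j, Finset.nonempty_iff_ne_empty.mpr hV, ?_⟩
            rw [Finset.ssubset_iff_of_subset (by rw [← h2]; exact fun y hy => mem_UU.mpr (Or.inr hy))]
            exact ⟨x0, h1 hx0, h.dAV j x0 hx0⟩
          rcases hM with ⟨_, hM⟩ | hM
          · exact absurd hVX (hM _)
          · obtain ⟨m0, hm0⟩ := hM.2.1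
            have hAM : ∀ y, y ∈ X → y ∉ V j → y ∈ A j := by
              intro y hy hy'
              rw [← h2, mem_UU] at hy
              tauto
            rcases h.lam _ _ (clV A V j) hM.1 with hh | hh | hh
            · -- `M ⊆ A j`
              have hMA : M ⊆ A j := fun y hy =>
                hAM y (hM.2.2.1 hy) (fun h' => Finset.disjoint_left.mp hh h' hy)
              refine ⟨fun hd => Finset.disjoint_left.mp hd (hMA hm0) hm0, fun hs => ?_⟩
              have : A j = M := Finset.Subset.antisymm hs hMA
              exact hV (h.n1' (this ▸ hM.1))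
            · -- `V j ⊆ M`
              refine ⟨fun hd => ?_, fun hs => ?_⟩
              · -- `M = V j`, so `A j = X \ M`
                have hMV : M ⊆ V j := by
                  intro y hy
                  by_contra hy'
                  exact Finset.disjoint_left.mp hd (hAM y (hM.2.2.1 hy) hy') hy
                apply hV
                apply h.n1
                intro Y hY
                rcases hTlam X Y hX (Or.inl hY) with gg | gg | gg
                · left
                  exact Finset.disjoint_of_subset_left h1 gg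
                · right; left
                  exact h1.trans gg
                · by_cases hYX : Y = X
                  · right; left; rw [hYX]; exact h1
                  by_cases hYe : Y.Nonempty
                  · have hInY : In Y := ⟨hY, hYe, Finset.ssubset_iff_subset_ne.mpr ⟨gg, hYX⟩⟩
                    rcases h.lam _ _ hY hM.1 with kk | kk | kk
                    · right; right
                      intro y hy
                      exact hAM y (gg hy) (fun h' => Finset.disjoint_left.mp kk hy (hh h'))
                    · left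
                      rw [Finset.disjoint_left]
                      intro y hy hy'
                      exact Finset.disjoint_left.mp hd hy (kk hy')
                    · have := hMmax _ hInY kk hM.2.1
                      left
                      rw [this]
                      exact hd
                  · left
                    rw [Finset.not_nonempty_iff_eq_empty.mp hYe]
                    exact Finset.disjoint_empty_right _
              · -- `X ⊆ M`
                apply hM.2.2.2
                intro y hy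
                rw [← h2, mem_UU] at hy
                rcases hy with hy | hy
                · exact hs hy
                · exact hh hy
            · -- `M ⊆ V j`
              have := hMmax _ hVX hh hM.2.1
              -- `M = V j`, same as above
              refine ⟨fun hd => ?_, fun hs => ?_⟩
              · apply hV
                apply h.n1
                intro Y hY
                rcases hTlam X Y hX (Or.inl hY) with gg | gg | gg
                · left
                  exact Finset.disjoint_of_subset_left h1 gg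
                · right; left
                  exact h1.trans gg
                · by_cases hYX : Y = X
                  · right; left; rw [hYX]; exact h1
                  by_cases hYe : Y.Nonempty
                  · have hInY : In Y := ⟨hY, hYe, Finset.ssubset_iff_subset_ne.mpr ⟨gg, hYX⟩⟩
                    rcases h.lam _ _ hY hM.1 with kk | kk | kk
                    · right; right
                      intro y hy
                      exact hAM y (gg hy) (fun h' => Finset.disjoint_left.mp kk hy (this ▸ h'))
                    · left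
                      rw [Finset.disjoint_left]
                      intro y hy hy'
                      exact Finset.disjoint_left.mp hd hy (kk hy')
                    · have := hMmax _ hInY kk hM.2.1
                      left
                      rw [this]
                      exact hd
                  · left
                    rw [Finset.not_nonempty_iff_eq_empty.mp hYe]
                    exact Finset.disjoint_empty_right _
              · exact h.dAV j x0 hx0 (this ▸ hs hx0)
    -- the forced sets are inside clusters strictly inside `X`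
    have hforced : ∀ j, hsS (A j) X M = ∅ ∨ ∃ Y, In Y ∧ hsS (A j) X M ⊆ Y := by
      intro j
      by_cases he : hsS (A j) X M = ∅
      · exact Or.inl he
      right
      obtain ⟨z, hz⟩ := Finset.nonempty_iff_ne_empty.mpr he
      by_cases hf : flipS (A j) X M
      · have h2 := (hflip j).mp hf
        have heq : hsS (A j) X M = V j := by
          rw [hsS, if_pos hf]
          ext y
          rw [Finset.mem_sdiff]
          nth_rewrite 1 [← h2.2]
          rw [mem_UU]
          have := h.dAV j y
          tauto
        refine ⟨V j, ⟨clV A V j, ⟨z, heq ▸ hz⟩, ?_⟩, heq ▸ Finset.Subset.refl _⟩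
        have hA0 : A j ≠ ∅ := fun h0 => by
          have := hVe j h0
          rw [heq, this] at hz
          simp at hz
        obtain ⟨x0, hx0⟩ := Finset.nonempty_iff_ne_empty.mpr hA0
        rw [Finset.ssubset_iff_of_subset (by
          rw [← h2.2]; exact fun y hy => mem_UU.mpr (Or.inr hy))]
        exact ⟨x0, h2.1 hx0, h.dAV j x0 hx0⟩
      · by_cases hAX : A j ⊆ X
        · have heq : hsS (A j) X M = A j := by rw [hsS, if_neg hf, if_pos hAX]
          rw [heq] at hz ⊢
          refine ⟨UU A V j, ⟨clU A V j, ⟨z, mem_UU.mpr (Or.inl hz)⟩, ?_⟩,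
            fun y hy => mem_UU.mpr (Or.inl hy)⟩
          exact Finset.ssubset_iff_subset_ne.mpr ⟨hUX j hAX, fun h' => hf ((hflip j).mpr ⟨hAX, h'⟩)⟩
        · by_cases hd : Disjoint (A j) X
          · exfalso
            rw [hsS, if_neg hf, if_neg hAX, if_pos hd] at hz
            simp at hz
          · have heq : hsS (A j) X M = X \ A j := by
              rw [hsS, if_neg hf, if_neg hAX, if_neg hd]
            rw [heq] at hz ⊢
            rw [Finset.not_disjoint_iff] at hd
            obtain ⟨x1, hx1, hx1'⟩ := hd
            have hclX : Cl A V X := by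
              rcases hX with hX | hX
              · exact hX
              · exact absurd (hX ▸ hA j) hAX
            have hO : Ov (A j) X := by
              refine ⟨⟨x1, hx1, hx1'⟩, ?_, ⟨z, Finset.mem_sdiff.mp hz⟩⟩
              by_contra hc
              push Not at hc
              exact hAX hc
            have hV := h.rigid hclX hO
            rw [← hV] at hz ⊢
            refine ⟨V j, ⟨clV A V j, ⟨z, hz⟩, ?_⟩, Finset.Subset.refl _⟩
            rw [Finset.ssubset_iff_of_subset (by rw [hV]; exact Finset.sdiff_subset)]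
            exact ⟨x1, hx1', h.dAV j x1 hx1⟩
    refine ⟨M, ?_, fun j hf => ?_, fun x hx => ?_⟩
    · rcases hM with ⟨hM, _⟩ | hM
      · exact Or.inl hM
      · exact Or.inr (hFam M hM.1)
    · have h2 := (hflip j).mp hf
      refine Finset.Subset.trans ?_ (h.sub j)
      intro y hy
      rw [Finset.mem_sdiff] at hy
      rw [← h2.2, mem_UU] at hy
      tauto
    · by_cases hex : ∃ Y, In Y ∧ x ∈ Y
      · obtain ⟨Y0, hY0, hxY0⟩ := hex
        obtain ⟨Y, hY, hY0Y, hYmax⟩ := hmaxex Y0 hY0
        refine ⟨Y, ih Y (Or.inl hY.1) hY.2.1 ?_, hY0Y hxY0, hY.2.2, fun j => ?_⟩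
        · have := Finset.card_lt_card hY.2.2
          omega
        · rcases hforced j with he | ⟨Z, hZ, hsub⟩
          · left; rw [he]; exact Finset.empty_subset _
          · rcases h.lam _ _ hZ.1 hY.1 with kk | kk | kk
            · right; exact Finset.disjoint_of_subset_left hsub kk
            · left; exact hsub.trans kk
            · left
              rw [← hYmax Z hZ kk]; exact hsub
      · push Not at hex
        refine ⟨{x}, Good.singleton (hTOm X hX hx) t, Finset.mem_singleton_self x, ?_, fun j => ?_⟩
        · refine Finset.ssubset_iff_subset_ne.mpr ⟨Finset.singleton_subset_iff.mpr hx, fun e => ?_⟩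
          exact hsing ⟨x, hTOm X hX hx, e.symm⟩
        · right
          rw [Finset.disjoint_singleton_right]
          rcases hforced j with he | ⟨Z, hZ, hsub⟩
          · rw [he]; simp
          · exact fun h' => hex Z hZ (hsub h')

/-- The dynamic programme decides whether there is a solution. -/
theorem good_iff [Fintype ι] {Om : Finset S} {A D : ι → Finset S} {Fam : Finset S → Prop}
    (hA : ∀ j, A j ⊆ Om) (hD : ∀ j, D j ⊆ Om) (hAD : ∀ j, Disjoint (A j) (D j))
    (hFam : ∀ V, MinSol A D V → ∀ X, Cl A V X → Fam X) (hOm : Fam Om) (t : ℕ)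
    (ht : Om.card ≤ t) :
    Good Om A D Fam (t + 1) Om ↔ ∃ V, Sol A D V := by
  constructor
  · intro h
    obtain ⟨V, hV⟩ := h.sound
    exact ⟨V, solIn_top hA hV⟩
  · rintro ⟨V, hV⟩
    obtain ⟨V', hV', _⟩ := hV.exists_min hAD
    by_cases hne : Om.Nonempty
    · exact hV'.good hA hD (hFam V' hV') hOm (t + 1) Om (Or.inr rfl) hne (by omega)
    · right
      rw [Finset.not_nonempty_iff_eq_empty] at hne
      have hA' : ∀ j, A j = ∅ := fun j => Finset.subset_empty.mp (hne ▸ hA j)
      refine ⟨hOm, ∅, Or.inl rfl, fun j _ => ?_, fun x hx => ?_⟩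
      · rw [hne, hA']; simp
      · rw [hne] at hx; simp at hx

end Pool.Agent.Lib.MP_9ed008_lc
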