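import Mathlib

/-!
# Tree GCC with the state sets `{0}`, `{1}`, `{0,2}`: definitions
-/

namespace Pool.Agent.Lib.MP_9ed008_lc

/-- The three allowed entries of the matrix. -/
inductive Entry
  | zero
  | one
  | zeroTwo
  deriving DecidableEq

/-- The set of states an entry stands for: `{0}`, `{1}` or `{0, 2}`. -/
def Entry.states : Entry → Set (Fin 3)
  | .zero => {0}
  | .one => {1}
  | .zeroTwo => {0, 2}

/-- A rooted tree on the node set `V`, given by its root and the parent of every node (the parent
of the root is the root itself by convention). The edges of the tree are the pairs
`(parent v, v)` with `v ≠ root`; the edge `(parent v, v)` is called the edge of `v`. -/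
structure RootedTree (V : Type) where
  root : V
  parent : V → V
  parent_root : parent root = root
  reaches_root : ∀ v, ∃ k : ℕ, parent^[k] v = root

/-- `v` lies strictly below `u`. -/
def RootedTree.Below {V : Type} (T : RootedTree V) (u v : V) : Prop :=
  u ≠ v ∧ ∃ k : ℕ, T.parent^[k] v = u

/-- `label v c q` says that the edge of `v` carries the label `(c, q)` (only used for `v ≠ root`);
`state v c` is the state of character `c` at node `v`. The conditions are those on a candidate
solution which do not mention the matrix. -/
structure IsPhylogeny {V C : Type} (T : RootedTree V) (label : V → C → Fin 3 → Prop)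
    (state : V → C → Fin 3) : Prop where
  /-- all states are `0` at the root -/
  state_root : ∀ c, state T.root c = 0
  /-- an edge labelled `(c, q)` leads to a node with state `q` of `c` -/
  state_label : ∀ v, v ≠ T.root → ∀ c q, label v c q → state v c = q
  /-- an edge without a label with character `c` does not change the state of `c` -/
  state_keep : ∀ v, v ≠ T.root → ∀ c, (∀ q, ¬ label v c q) → state v c = state (T.parent v) c
  /-- no pair `(c, q)` labels two different edges -/
  perfect : ∀ u v, u ≠ T.root → v ≠ T.root → ∀ c q, label u c q → label v c q → u = v
  /-- no edge carries `(c, 0)` -/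
  no_zero : ∀ v, v ≠ T.root → ∀ c, ¬ label v c 0
  /-- an edge carrying `(c, 2)` lies below the edge carrying `(c, 1)` -/
  two_below_one : ∀ v, v ≠ T.root → ∀ c, label v c 2 →
    ∃ u, u ≠ T.root ∧ label u c 1 ∧ T.Below u v

/-- The matrix `M` with rows indexed by the species and columns indexed by the characters has a
solution: a finite rooted tree with labels and states as above, such that every species is
explained by some node. -/
def HasSolution {S C : Type} (M : S → C → Entry) : Prop :=
  ∃ (V : Type) (_ : Fintype V) (T : RootedTree V) (label : V → C → Fin 3 → Prop)
    (state : V → C → Fin 3), IsPhylogeny T label state ∧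
    ∀ s, ∃ x, ∀ c, state x c ∈ (M s c).states

/-- An instance of the problem: a matrix with `n` rows (species) and `m` columns (characters). -/
structure Inst where
  n : ℕ
  m : ℕ
  M : Fin n → Fin m → Entry

/-- The alphabet in which instances are written. -/
inductive Sym
  | zero
  | one
  | zeroTwo
  | tick
  | sep
  deriving DecidableEq

instance : Fintype Sym :=
  ⟨{Sym.zero, Sym.one, Sym.zeroTwo, Sym.tick, Sym.sep}, fun x => by cases x <;> simp⟩

/-- The symbol of an entry. -/
def Entry.sym : Entry → Sym
  | .zero => .zero
  | .one => .one
  | .zeroTwo => .zeroTwo

/-- The rows of a matrix, written as lists of symbols. -/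
def Inst.rows (I : Inst) : List (List Sym) :=
  List.ofFn (fun s => List.ofFn (fun c => (I.M s c).sym))

/-- The string of an instance: a block of `m` ticks, then the matrix row by row, one symbol for
every entry; every block and every row is followed by the separator. -/
def Inst.encode (I : Inst) : List Sym :=
  (List.replicate I.m Sym.tick :: I.rows).flatMap (fun r => r ++ [Sym.sep])

end Pool.Agent.Lib.MP_9ed008_lc
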