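import Mathlib

/-!
# Structure theorem for minimal laminar solutions
-/

namespace Pool.Agent.Lib.MP_9ed008_lc

variable {S ι : Type*} [DecidableEq S]

/-- Two finite sets are compatible: disjoint or nested. -/
def Lam (X Y : Finset S) : Prop := Disjoint X Y ∨ X ⊆ Y ∨ Y ⊆ X

/-- Two finite sets overlap: they meet and neither contains the other. -/
def Ov (X Y : Finset S) : Prop := (∃ x, x ∈ X ∧ x ∈ Y) ∧ (∃ x, x ∈ X ∧ x ∉ Y) ∧ (∃ x, x ∈ Y ∧ x ∉ X)

omit [DecidableEq S] in
theorem Lam.symm {X Y : Finset S} (h : Lam X Y) : Lam Y X := by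
  unfold Lam at *
  rcases h with h | h | h
  · exact Or.inl h.symm
  · exact Or.inr (Or.inr h)
  · exact Or.inr (Or.inl h)

omit [DecidableEq S] in
theorem lam_iff {X Y : Finset S} : Lam X Y ↔
    ((∀ x ∈ X, x ∉ Y) ∨ (∀ x ∈ X, x ∈ Y) ∨ (∀ x ∈ Y, x ∈ X)) := by
  unfold Lam
  rw [Finset.disjoint_left]
  rfl

/-- The cluster `U i` of a character. -/
def UU (A V : ι → Finset S) (i : ι) : Finset S := A i ∪ V i

theorem mem_UU {A V : ι → Finset S} {i : ι} {x : S} : x ∈ UU A V i ↔ x ∈ A i ∨ x ∈ V i := by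
  simp [UU]

/-- The clusters of a family. -/
def Cl (A V : ι → Finset S) (X : Finset S) : Prop := ∃ i, X = UU A V i ∨ X = V i

/-- Laminar solutions. -/
structure Sol (A D V : ι → Finset S) : Prop where
  sub : ∀ i, V i ⊆ D i
  lam : ∀ X Y, Cl A V X → Cl A V Y → Lam X Y

/-- Pointwise minimal laminar solutions. -/
structure MinSol (A D V : ι → Finset S) : Prop extends Sol A D V where
  disj : ∀ i, Disjoint (A i) (D i)
  min : ∀ V' : ι → Finset S, Sol A D V' → (∀ i, V' i ⊆ V i) → ∀ i, V' i = V i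

theorem rigid {A V X : Finset S} (h1 : Lam (A ∪ V) X) (h2 : Lam V X) (hd : Disjoint A V)
    (ho : Ov A X) : V = X \ A := by
  obtain ⟨⟨x, hx1, hx2⟩, ⟨y, hy1, hy2⟩, ⟨z, hz1, hz2⟩⟩ := ho
  rw [Finset.disjoint_left] at hd
  rw [lam_iff] at h1 h2
  ext w
  grind

section
variable {A D V : ι → Finset S}

theorem clU (A V : ι → Finset S) (i : ι) : Cl A V (UU A V i) := ⟨i, Or.inl rfl⟩
theorem clV (A V : ι → Finset S) (i : ι) : Cl A V (V i) := ⟨i, Or.inr rfl⟩

theorem MinSol.dAV (h : MinSol A D V) (i : ι) : ∀ x, x ∈ A i → x ∉ V i := fun _ hx hv =>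
  Finset.disjoint_left.mp (h.disj i) hx (h.sub i hv)

theorem MinSol.disjAV (h : MinSol A D V) (i : ι) : Disjoint (A i) (V i) :=
  Finset.disjoint_left.mpr (fun x hx => h.dAV i x hx)

theorem MinSol.rigid (h : MinSol A D V) {i : ι} {X : Finset S} (hX : Cl A V X)
    (ho : Ov (A i) X) : V i = X \ A i :=
  Pool.Agent.Lib.MP_9ed008_lc.rigid (h.lam _ _ (clU A V i) hX) (h.lam _ _ (clV A V i) hX)
    (h.disjAV i) ho

/-- If `A i` is compatible with all clusters then `V i` is empty. -/
theorem MinSol.n1 (h : MinSol A D V) {i : ι} (hi : ∀ X, Cl A V X → Lam (A i) X) : V i = ∅ := by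
  classical
  have hs : Sol A D (Function.update V i ∅) := by
    have hcl : ∀ X, Cl A (Function.update V i ∅) X → Cl A V X ∨ X = A i ∨ X = ∅ := by
      rintro X ⟨j, hj⟩
      by_cases hji : j = i
      · subst hji
        simp [UU] at hj
        tauto
      · simp [UU, Function.update_of_ne hji] at hj
        left
        exact ⟨j, by simpa [UU] using hj⟩
    refine ⟨fun j => ?_, fun X Y hX hY => ?_⟩
    · by_cases hji : j = i
      · subst hji; simp
      · rw [Function.update_of_ne hji]; exact h.sub j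
    · rcases hcl X hX with hX | rfl | rfl
      · rcases hcl Y hY with hY | rfl | rfl
        · exact h.lam X Y hX hY
        · exact (hi X hX).symm
        · exact Or.inl (Finset.disjoint_empty_right _)
      · rcases hcl Y hY with hY | rfl | rfl
        · exact hi Y hY
        · exact Or.inr (Or.inl (Finset.Subset.refl _))
        · exact Or.inl (Finset.disjoint_empty_right _)
      · exact Or.inl (Finset.disjoint_empty_left _)
  have := h.min _ hs (fun j => by
    by_cases hji : j = i
    · subst hji; simp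
    · rw [Function.update_of_ne hji]) i
  rw [← this]; simp

theorem MinSol.n1' (h : MinSol A D V) {i : ι} (hi : Cl A V (A i)) : V i = ∅ :=
  h.n1 (fun _ hX => h.lam _ _ hi hX)

/-- `i` is over `j`. -/
def Over (V A : ι → Finset S) (i j : ι) : Prop :=
  (∃ x, x ∈ V j) ∧ V j ⊂ V i ∧ V i ⊂ UU A V j ∧ UU A V j ⊂ UU A V i

/-- `j` has its loss cluster given by a single overlapping character. -/
def TypeA (V A : ι → Finset S) (j : ι) : Prop := ∃ l, Ov (A j) (A l) ∧ V j = A l \ A j

theorem MinSol.pair (h : MinSol A D V) {i j : ι} (ho : Ov (A i) (A j))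
    (hU : UU A V j ⊆ UU A V i) : TypeA V A i ∨ Over V A i j := by
  have l1 := lam_iff.mp (h.lam _ _ (clV A V i) (clU A V j))
  have l2 := lam_iff.mp (h.lam _ _ (clV A V i) (clV A V j))
  have d1 := h.dAV i
  have d2 := h.dAV j
  obtain ⟨⟨x, hx1, hx2⟩, ⟨y, hy1, hy2⟩, ⟨z, hz1, hz2⟩⟩ := id ho
  simp only [mem_UU] at l1
  have hU' : ∀ w, (w ∈ A j ∨ w ∈ V j) → (w ∈ A i ∨ w ∈ V i) := fun w hw =>
    mem_UU.mp (hU (mem_UU.mpr hw))
  by_cases hc : ∃ w, w ∈ V j ∧ w ∈ V i
  · right
    obtain ⟨w, hw1, hw2⟩ := hc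
    have e1 : ∀ t, t ∈ V j → t ∈ V i := by grind
    refine ⟨⟨w, hw1⟩, ?_, ?_, ?_⟩
    · rw [Finset.ssubset_iff_of_subset (fun t ht => e1 t ht)]
      exact ⟨z, by grind, by grind⟩
    · rw [Finset.ssubset_iff_of_subset (fun t ht => mem_UU.mpr (by grind))]
      exact ⟨x, by grind [mem_UU], by grind⟩
    · rw [Finset.ssubset_iff_of_subset hU]
      exact ⟨y, by grind [mem_UU], by grind [mem_UU]⟩
  · left
    refine ⟨j, ho, ?_⟩
    ext w
    grind

theorem MinSol.lemmaD_aux (h : MinSol A D V) {i j : ι} (hi : ¬ TypeA V A i)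
    (hie : ∃ x, x ∈ V i) (hje : ∃ x, x ∈ V j) (hdisj : ∀ x, x ∈ V i → x ∉ V j)
    (h1 : V j ⊆ UU A V i) (h2 : V i ⊆ UU A V j) (hU : UU A V j ⊆ UU A V i) : False := by
  have d1 := h.dAV i
  have d2 := h.dAV j
  obtain ⟨u, hu⟩ := hie
  obtain ⟨v, hv⟩ := hje
  have h1' : ∀ w, w ∈ V j → (w ∈ A i ∨ w ∈ V i) := fun w hw => mem_UU.mp (h1 hw)
  have h2' : ∀ w, w ∈ V i → (w ∈ A j ∨ w ∈ V j) := fun w hw => mem_UU.mp (h2 hw)
  have hU' : ∀ w, (w ∈ A j ∨ w ∈ V j) → (w ∈ A i ∨ w ∈ V i) := fun w hw =>
    mem_UU.mp (hU (mem_UU.mpr hw))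
  by_cases hc : ∃ w, w ∈ A i ∧ w ∈ A j
  · obtain ⟨w, hw1, hw2⟩ := hc
    have ho : Ov (A i) (A j) := ⟨⟨w, hw1, hw2⟩, ⟨v, by grind, by grind⟩, ⟨u, by grind, by grind⟩⟩
    rcases h.pair ho hU with ht | ⟨_, hs, _⟩
    · exact hi ht
    · exact hdisj v (hs.1 hv) hv
  · have hAj : A j = V i := by
      ext w
      grind
    have := h.n1' (i := j) (hAj ▸ clV A V i)
    rw [this] at hv
    simp at hv

theorem MinSol.lemmaD (h : MinSol A D V) {i j : ι} (hi : ¬ TypeA V A i) (hj : ¬ TypeA V A j)
    (hie : ∃ x, x ∈ V i) (hje : ∃ x, x ∈ V j) (hdisj : ∀ x, x ∈ V i → x ∉ V j)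
    (h1 : V j ⊆ UU A V i) (h2 : V i ⊆ UU A V j) : False := by
  rcases h.lam _ _ (clU A V i) (clU A V j) with hh | hh | hh
  · obtain ⟨v, hv⟩ := hje
    exact Finset.disjoint_left.mp hh (h1 hv) (mem_UU.mpr (Or.inr hv))
  · exact h.lemmaD_aux hj hje hie (fun x hx hx' => hdisj x hx' hx) h2 h1 hh
  · exact h.lemmaD_aux hi hie hje hdisj h1 h2 hh

/-- Two characters are linked if one is over the other. -/
def Link (V A : ι → Finset S) (i j : ι) : Prop := Over V A i j ∨ Over V A j i

theorem Link.symm {i j : ι} (h : Link V A i j) : Link V A j i := Or.symm h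

theorem Over.ne_right {i j : ι} (h : Over V A i j) : ∃ x, x ∈ V j := h.1
theorem Over.ne_left {i j : ι} (h : Over V A i j) : ∃ x, x ∈ V i := by
  obtain ⟨x, hx⟩ := h.1
  exact ⟨x, h.2.1.1 hx⟩

theorem Link.ne {i j : ι} (h : Link V A i j) : ∃ x, x ∈ V j := by
  rcases h with h | h
  · exact h.ne_right
  · exact h.ne_left

/-- Claim 1: the smallest loss cluster of a component without a character of type A is contained
in all loss clusters of the component. -/
theorem MinSol.claim1 (h : MinSol A D V) (G : ι → Prop) (hG : ∀ i j, G i → Link V A i j → G j)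
    (hT : ∀ i, G i → ¬ TypeA V A i) (hne : ∀ i, G i → ∃ x, x ∈ V i) (k : ι)
    (hGk : ∀ i, G i ↔ Relation.ReflTransGen (Link V A) k i)
    (hmin : ∀ i, G i → (V k).card ≤ (V i).card) : ∀ i, G i → V k ⊆ V i := by
  have hk : G k := (hGk k).mpr Relation.ReflTransGen.refl
  obtain ⟨w0, hw0⟩ := hne k hk
  -- the part reachable through characters containing `V k`
  let R : ι → ι → Prop := fun i j => Link V A i j ∧ V k ⊆ V j
  have hcl : ∀ i, Relation.ReflTransGen R k i → V k ⊆ V i := by
    intro i hi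
    induction hi with
    | refl => exact Finset.Subset.refl _
    | tail _ hbc _ => exact hbc.2
  have hclG : ∀ i, Relation.ReflTransGen R k i → G i := by
    intro i hi
    induction hi with
    | refl => exact hk
    | tail _ hbc ih => exact hG _ _ ih hbc.1
  -- key step
  have key : ∀ i0 l, Relation.ReflTransGen R k i0 → Link V A i0 l → V k ⊆ V l := by
    intro i0 l hi0 hl
    by_contra hcon
    have hlG : G l := hG _ _ (hclG i0 hi0) hl
    have hov : Over V A i0 l := by
      rcases hl with hl | hl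
      · exact hl
      · exact absurd ((hcl i0 hi0).trans hl.2.1.1) hcon
    have hdis : ∀ x, x ∈ V l → x ∉ V k := by
      rcases h.lam _ _ (clV A V l) (clV A V k) with hh | hh | hh
      · exact fun x hx => Finset.disjoint_left.mp hh hx
      · have : V l = V k := Finset.eq_of_subset_of_card_le hh (hmin l hlG)
        exact absurd (this ▸ Finset.Subset.refl _) hcon
      · exact absurd hh hcon
    -- all members of the part contain `V l`
    obtain ⟨v0, hv0⟩ := hne l hlG
    have hstep : ∀ x y, Relation.ReflTransGen R k x → Relation.ReflTransGen R k y →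
        Link V A x y → V l ⊆ V x → V l ⊆ V y := by
      intro x y hx hy hxy hlx
      rcases hxy with hxy | hxy
      · -- `x` over `y`
        by_contra hcon2
        have hWy := hcl y hy
        have hWi0 := hcl i0 hi0
        have a1 := lam_iff.mp (h.lam _ _ (clV A V l) (clV A V y))
        have hd2 : ∀ t, t ∈ V l → t ∉ V y := by
          rcases a1 with a | a | a
          · exact a
          · exact absurd (fun t ht => a t ht) hcon2
          · exact absurd hw0 (hdis _ (a _ (hWy hw0)))
        refine h.lemmaD (hT l hlG) (hT y (hclG y hy)) ⟨v0, hv0⟩ (hne y (hclG y hy)) hd2 ?_ ?_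
        · rcases h.lam _ _ (clV A V y) (clU A V l) with hh | hh | hh
          · exact absurd (hov.2.2.1.1 (hWi0 hw0)) (Finset.disjoint_left.mp hh (hWy hw0))
          · exact hh
          · exact absurd (hh (mem_UU.mpr (Or.inr hv0))) (hd2 _ hv0)
        · exact hlx.trans hxy.2.2.1.1
      · exact hlx.trans hxy.2.1.1
    have hall : ∀ x, Relation.ReflTransGen R k x → V l ⊆ V x → V l ⊆ V k := by
      intro x hx
      induction hx with
      | refl => exact fun h => h
      | @tail b c hb hbc ih =>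
        intro hc
        exact ih (hstep c b (hb.tail hbc) hb hbc.1.symm hc)
    have := hall i0 hi0 hov.2.1.1
    exact hdis v0 hv0 (this hv0)
  intro i hi
  have : Relation.ReflTransGen R k i := by
    have := (hGk i).mp hi
    induction this with
    | refl => exact Relation.ReflTransGen.refl
    | @tail b c hb hbc ih =>
      have ihb := ih ((hGk b).mpr hb)
      exact ihb.tail ⟨hbc, key b c ihb hbc⟩
  exact hcl i this

/-- Crossing lemma: a cluster strictly between the smallest loss cluster and the largest gain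
cluster of the component lies strictly between the two clusters of some member. -/
theorem MinSol.crossing (h : MinSol A D V) (G : ι → Prop) (k p : ι)
    (hGk : ∀ i, G i ↔ Relation.ReflTransGen (Link V A) k i)
    (hne : ∃ x, x ∈ V k) (hp : G p) (hW : ∀ i, G i → V k ⊆ V i)
    (Y : Finset S) (hY : Cl A V Y) (h1 : V k ⊂ Y) (h2 : Y ⊂ UU A V p) :
    ∃ i, G i ∧ V i ⊂ Y ∧ Y ⊂ UU A V i := by
  by_contra hcon
  push Not at hcon
  obtain ⟨w, hw⟩ := hne
  have hwY : w ∈ Y := h1.1 hw
  -- every member is low or high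
  have hlow : ∀ i, G i → UU A V i ⊆ Y := by
    intro i hi
    have := (hGk i).mp hi
    clear hi
    induction this with
    | refl =>
      rcases h.lam _ _ (clU A V k) hY with hh | hh | hh
      · exact absurd hwY (Finset.disjoint_left.mp hh (mem_UU.mpr (Or.inr hw)))
      · exact hh
      · by_contra hc
        have hk : G k := (hGk k).mpr Relation.ReflTransGen.refl
        exact hcon k hk h1 ⟨hh, fun h' => hc h'⟩
    | @tail b c hb hbc ih =>
      rcases hbc with hbc | hbc
      · exact hbc.2.2.2.1.trans ih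
      · have hc : G c := (hGk c).mpr (hb.tail (Or.inr hbc))
        -- `c` over `b`
        rcases h.lam _ _ (clU A V c) hY with hh | hh | hh
        · exact absurd hwY (Finset.disjoint_left.mp hh (mem_UU.mpr (Or.inr (hW c hc hw))))
        · exact hh
        · by_contra hcc
          -- `Y ⊂ UU c`, so `¬ V c ⊂ Y`
          have hn : ¬ V c ⊂ Y := fun hvc => hcon c hc hvc ⟨hh, fun h' => hcc h'⟩
          have : V c ⊂ Y := by
            refine ⟨hbc.2.2.1.1.trans ih, fun h' => ?_⟩
            exact hbc.2.2.1.2 (ih.trans h')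
          exact hn this
  exact h2.2 (hlow p hp)

open Classical in
/-- **Structure theorem.** In a minimal solution every character with nonempty loss cluster is
connected to a character of type A. -/
theorem MinSol.structure [Finite ι] (h : MinSol A D V) (i : ι) (hi : ∃ x, x ∈ V i) :
    ∃ j, Relation.ReflTransGen (Link V A) i j ∧ TypeA V A j := by
  by_contra hcon
  push Not at hcon
  -- the component
  let G : ι → Prop := fun j => Relation.ReflTransGen (Link V A) i j
  have hsymm : ∀ a b, Relation.ReflTransGen (Link V A) a b → Relation.ReflTransGen (Link V A) b a :=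
    fun a b hab => by
      induction hab with
      | refl => exact Relation.ReflTransGen.refl
      | tail _ hbc ih => exact Relation.ReflTransGen.head hbc.symm ih
  have hGl : ∀ a b, G a → Link V A a b → G b := fun a b ha hab =>
    Relation.ReflTransGen.tail ha hab
  have hGT : ∀ a, G a → ¬ TypeA V A a := fun a ha => hcon a ha
  have hGne : ∀ a, G a → ∃ x, x ∈ V a := by
    intro a ha
    have ha' : Relation.ReflTransGen (Link V A) i a := ha
    rcases Relation.ReflTransGen.cases_tail ha' with hh | ⟨c, _, hc⟩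
    · subst hh; exact hi
    · exact hc.ne
  obtain ⟨k, hk, hkmin⟩ : ∃ k, G k ∧ ∀ a, G a → (V k).card ≤ (V a).card := by
    have hfin : Set.Finite {a | G a} := Set.toFinite _
    obtain ⟨k, hk, hmin⟩ := Set.exists_min_image {a | G a} (fun a => (V a).card) hfin
      ⟨i, Relation.ReflTransGen.refl⟩
    exact ⟨k, hk, hmin⟩
  have hGk : ∀ a, G a ↔ Relation.ReflTransGen (Link V A) k a := fun a =>
    ⟨fun ha => (hsymm _ _ hk).trans ha, fun ha => Relation.ReflTransGen.trans hk ha⟩
  have hW := h.claim1 G hGl hGT hGne k hGk hkmin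
  obtain ⟨p, hp, hpmax⟩ : ∃ p, G p ∧ ∀ a, G a → (UU A V a).card ≤ (UU A V p).card := by
    have hfin : Set.Finite {a | G a} := Set.toFinite _
    obtain ⟨p, hp, hmax⟩ := Set.exists_max_image {a | G a} (fun a => (UU A V a).card) hfin
      ⟨i, Relation.ReflTransGen.refl⟩
    exact ⟨p, hp, hmax⟩
  obtain ⟨w, hw⟩ := hGne k hk
  have hP : ∀ a, G a → UU A V a ⊆ UU A V p := by
    intro a ha
    rcases h.lam _ _ (clU A V a) (clU A V p) with hh | hh | hh
    · exact absurd (mem_UU.mpr (Or.inr (hW p hp hw)))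
        (Finset.disjoint_left.mp hh (mem_UU.mpr (Or.inr (hW a ha hw))))
    · exact hh
    · exact (Finset.eq_of_subset_of_card_le hh (hpmax a ha)) ▸ Finset.Subset.refl _
  have hcross := h.crossing G k p hGk ⟨w, hw⟩ hp hW
  -- the modified family
  let Md : ι → Prop := fun a => V k ⊆ V a ∧ UU A V a ⊆ UU A V p
  let V' : ι → Finset S := fun a => if Md a then V a \ V k else V a
  have hV'sub : ∀ a, V' a ⊆ V a := by
    intro a
    simp only [V']
    split
    · exact Finset.sdiff_subset
    · exact Finset.Subset.refl _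
  -- clusters of unmodified characters are not strictly between
  have hunm : ∀ j, ¬ Md j → ∀ Y, (Y = UU A V j ∨ Y = V j) → V k ⊂ Y → ¬ Y ⊂ UU A V p := by
    rintro j hj Y (rfl | rfl) hY1 hY2
    · obtain ⟨a, ha, ha1, ha2⟩ := hcross _ (clU A V j) hY1 hY2
      have hnW : ¬ V k ⊆ V j := fun hh => hj ⟨hh, hY2.1⟩
      have hVkV : ∃ w', w' ∈ V k ∧ w' ∉ V j := by
        by_contra hc
        push Not at hc
        exact hnW hc
      obtain ⟨w', hw'1, hw'2⟩ := hVkV
      have hw'a : w' ∈ V a := hW a ha hw'1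
      have hw'j : w' ∈ A j := by
        rcases mem_UU.mp (hY1.1 hw'1) with hh | hh
        · exact hh
        · exact absurd hh hw'2
      have b1 : ∀ t, t ∈ V a → (t ∈ A j ∨ t ∈ V j) := fun t ht => mem_UU.mp (ha1.1 ht)
      have b2 : ∀ t, (t ∈ A j ∨ t ∈ V j) → (t ∈ A a ∨ t ∈ V a) := fun t ht =>
        mem_UU.mp (ha2.1 (mem_UU.mpr ht))
      have d1 := h.dAV a
      have d2 := h.dAV j
      obtain ⟨z, hz1, hz2⟩ : ∃ z, z ∈ UU A V a ∧ z ∉ UU A V j := by
        by_contra hc
        push Not at hc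
        exact ha2.2 hc
      rw [mem_UU] at hz1 hz2
      have e1 : ∃ y, y ∈ A a ∧ y ∉ A j := ⟨z, by grind, by grind⟩
      have e2 : ∃ y, y ∈ A j ∧ y ∉ A a := ⟨w', hw'j, fun hh => d1 w' hh hw'a⟩
      have e3 : ∃ y, y ∈ A a ∧ y ∈ A j := by
        by_contra hc
        push Not at hc
        have l1 := lam_iff.mp (h.lam _ _ (clV A V j) (clV A V a))
        obtain ⟨u, hu1, hu2⟩ : ∃ u, u ∈ UU A V j ∧ u ∉ V a := by
          by_contra hc
          push Not at hc
          exact ha1.2 hc
        rw [mem_UU] at hu1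
        have hAj : A j = V a := by
          ext t
          grind
        have hVj := h.n1' (i := j) (hAj ▸ clV A V a)
        have : UU A V j = V a := by rw [← hAj]; simp [UU, hVj]
        exact hu2 (this ▸ mem_UU.mpr hu1)
      rcases h.pair ⟨e3, e1, e2⟩ ha2.1 with ht | ho
      · exact hGT a ha ht
      · exact hnW (hW j (hGl a j ha (Or.inl ho)))
    · obtain ⟨a, ha, ha1, ha2⟩ := hcross _ (clV A V j) hY1 hY2
      have hnU : ¬ UU A V j ⊆ UU A V p := fun hh => hj ⟨hY1.1, hh⟩
      have hja : Over V A j a := by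
        refine ⟨hGne a ha, ha1, ha2, ?_⟩
        rcases h.lam _ _ (clU A V a) (clU A V j) with hh | hh | hh
        · exact absurd (mem_UU.mpr (Or.inr (hY1.1 hw)))
            (Finset.disjoint_left.mp hh (mem_UU.mpr (Or.inr (hW a ha hw))))
        · exact ⟨hh, fun hh' => hnU (hh'.trans (hP a ha))⟩
        · exact absurd (hh.trans (hP a ha)) hnU
      exact hnU (hP j (hGl a j ha (Or.inr hja)))
  have hcl' : ∀ X, Cl A V' X → (∃ Z, Cl A V Z ∧ V k ⊆ Z ∧ Z ⊆ UU A V p ∧ X = Z \ V k) ∨
      (∃ j, ¬ Md j ∧ (X = UU A V j ∨ X = V j)) := by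
    rintro X ⟨j, hj⟩
    by_cases hm : Md j
    · left
      have hVj : V' j = V j \ V k := by simp only [V', hm, if_true]
      rcases hj with hj | hj
      · refine ⟨UU A V j, clU A V j, hm.1.trans (fun x hx => mem_UU.mpr (Or.inr hx)), hm.2, ?_⟩
        rw [hj, UU, hVj]
        have := h.dAV j
        have hm1 := hm.1
        ext t
        simp only [Finset.mem_union, Finset.mem_sdiff, mem_UU]
        constructor
        · rintro (ht | ht)
          · exact ⟨Or.inl ht, fun hh => this t ht (hm1 hh)⟩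
          · exact ⟨Or.inr ht.1, ht.2⟩
        · rintro ⟨ht | ht, ht2⟩
          · exact Or.inl ht
          · exact Or.inr ⟨ht, ht2⟩
      · refine ⟨V j, clV A V j, hm.1, ?_, by rw [hj, hVj]⟩
        exact Finset.Subset.trans (fun x hx => mem_UU.mpr (Or.inr hx)) hm.2
    · right
      have hVj : V' j = V j := by simp only [V', hm, if_false]
      refine ⟨j, hm, ?_⟩
      rcases hj with hj | hj
      · left; rw [hj, UU, hVj]; rfl
      · right; rw [hj, hVj]
  have hmix : ∀ Z j Y, Cl A V Z → V k ⊆ Z → Z ⊆ UU A V p → ¬ Md j → (Y = UU A V j ∨ Y = V j) →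
      Lam (Z \ V k) Y := by
    intro Z j Y hZ hZ1 hZ2 hj hYj
    have hYc : Cl A V Y := ⟨j, hYj⟩
    have l1 := h.lam _ _ hZ hYc
    have l2 := h.lam _ _ hYc (clV A V k)
    rcases l1 with hh | hh | hh
    · left
      exact Finset.disjoint_of_subset_left Finset.sdiff_subset hh
    · right; left
      exact Finset.sdiff_subset.trans hh
    · by_cases hYZ : Y = Z
      · right; left; rw [hYZ]; exact Finset.sdiff_subset
      · rcases l2 with g | g | g
        · right; right
          intro t ht
          exact Finset.mem_sdiff.mpr ⟨hh ht, Finset.disjoint_left.mp g ht⟩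
        · left
          rw [Finset.disjoint_left]
          intro t ht ht'
          exact (Finset.mem_sdiff.mp ht).2 (g ht')
        · by_cases hYk : Y ⊆ V k
          · left
            rw [Finset.disjoint_left]
            intro t ht ht'
            exact (Finset.mem_sdiff.mp ht).2 (hYk ht')
          · exfalso
            refine hunm j hj Y hYj ⟨g, hYk⟩ ⟨hh.trans hZ2, fun hh' => ?_⟩
            exact hYZ (Finset.Subset.antisymm hh (hZ2.trans hh'))
  have hsol : Sol A D V' := by
    refine ⟨fun j => (hV'sub j).trans (h.sub j), fun X Y hX hY => ?_⟩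
    rcases hcl' X hX with ⟨Z, hZ, hZ1, hZ2, rfl⟩ | ⟨j, hj, hXj⟩
    · rcases hcl' Y hY with ⟨Z', hZ', hZ'1, hZ'2, rfl⟩ | ⟨j', hj', hYj⟩
      · rcases h.lam _ _ hZ hZ' with hh | hh | hh
        · left
          exact Finset.disjoint_of_subset_left Finset.sdiff_subset
            (Finset.disjoint_of_subset_right Finset.sdiff_subset hh)
        · right; left; exact Finset.sdiff_subset_sdiff hh (Finset.Subset.refl _)
        · right; right; exact Finset.sdiff_subset_sdiff hh (Finset.Subset.refl _)
      · exact hmix Z j' Y hZ hZ1 hZ2 hj' hYj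
    · rcases hcl' Y hY with ⟨Z', hZ', hZ'1, hZ'2, rfl⟩ | ⟨j', hj', hYj⟩
      · exact (hmix Z' j X hZ' hZ'1 hZ'2 hj hXj).symm
      · exact h.lam _ _ ⟨j, hXj⟩ ⟨j', hYj⟩
  have := h.min V' hsol hV'sub k
  have hMk : Md k := ⟨Finset.Subset.refl _, hP k hk⟩
  have hVk : V' k = V k \ V k := by simp only [V', hMk, if_true]
  rw [hVk, Finset.sdiff_self] at this
  rw [← this] at hw
  simp at hw

/-- Below every solution there is a minimal one. -/
theorem Sol.exists_min [Fintype ι] (hs : Sol A D V) (hd : ∀ i, Disjoint (A i) (D i)) :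
    ∃ V' : ι → Finset S, MinSol A D V' ∧ ∀ i, V' i ⊆ V i := by
  classical
  induction hn : ∑ i, (V i).card using Nat.strong_induction_on generalizing V with
  | _ n ih =>
    by_cases hm : ∀ V' : ι → Finset S, Sol A D V' → (∀ i, V' i ⊆ V i) → ∀ i, V' i = V i
    · exact ⟨V, ⟨hs, hd, hm⟩, fun i => Finset.Subset.refl _⟩
    · push Not at hm
      obtain ⟨V', hs', hle, i, hi⟩ := hm
      have hlt : ∑ i, (V' i).card < n := by
        rw [← hn]
        refine Finset.sum_lt_sum (fun j _ => Finset.card_le_card (hle j)) ⟨i, Finset.mem_univ _, ?_⟩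
        exact Finset.card_lt_card ((Finset.ssubset_iff_subset_ne).mpr ⟨hle i, hi⟩)
      obtain ⟨V'', h1, h2⟩ := ih _ hlt hs' rfl
      exact ⟨V'', h1, fun j => (h2 j).trans (hle j)⟩

end

end Pool.Agent.Lib.MP_9ed008_lc
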