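import Pool.Agent.Lib.MP_9ed008_lc.Defs
import Pool.Agent.Lib.MP_9ed008_lc.Structure

/-!
# Solution trees and laminar families
-/

namespace Pool.Agent.Lib.MP_9ed008_lc

namespace RootedTree

variable {V : Type} (T : RootedTree V)

/-- `u` is an ancestor of `v` or equal to it. -/
def Anc (u v : V) : Prop := ∃ k : ℕ, T.parent^[k] v = u

theorem iter_root (k : ℕ) : T.parent^[k] T.root = T.root := by
  induction k with
  | zero => rfl
  | succ k ih => rw [Function.iterate_succ_apply, T.parent_root, ih]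

theorem Anc.refl (v : V) : T.Anc v v := ⟨0, rfl⟩

theorem Anc.trans {u v w : V} (h1 : T.Anc u v) (h2 : T.Anc v w) : T.Anc u w := by
  obtain ⟨a, ha⟩ := h1
  obtain ⟨b, hb⟩ := h2
  exact ⟨a + b, by rw [Function.iterate_add_apply, hb, ha]⟩

theorem Anc.root {u : V} (h : T.Anc u T.root) : u = T.root := by
  obtain ⟨k, hk⟩ := h
  rw [T.iter_root] at hk
  exact hk.symm

theorem Anc.antisymm {u v : V} (h1 : T.Anc u v) (h2 : T.Anc v u) : u = v := by
  obtain ⟨a, ha⟩ := h1
  obtain ⟨b, hb⟩ := h2
  obtain ⟨k, hk⟩ := T.reaches_root v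
  by_cases hab : a = 0
  · subst hab; exact ha.symm
  have hv : T.parent^[b + a] v = v := by rw [Function.iterate_add_apply, ha, hb]
  have hvk : ∀ n, T.parent^[(b + a) * n] v = v := by
    intro n
    induction n with
    | zero => simp
    | succ n ih => rw [Nat.mul_succ, Function.iterate_add_apply, hv, ih]
  have h3 : v = T.root := by
    have h4 : (b + a) * k = ((b + a) * k - k) + k := by
      have : k ≤ (b + a) * k := Nat.le_mul_of_pos_left k (by omega)
      omega
    rw [← hvk k, h4, Function.iterate_add_apply, hk, T.iter_root]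
  subst h3
  rw [T.iter_root] at ha
  exact ha.symm

theorem Anc.comparable {u w x : V} (h1 : T.Anc u x) (h2 : T.Anc w x) : T.Anc u w ∨ T.Anc w u := by
  obtain ⟨a, ha⟩ := h1
  obtain ⟨b, hb⟩ := h2
  rcases le_total a b with hab | hab
  · right
    refine ⟨b - a, ?_⟩
    rw [← ha, ← Function.iterate_add_apply, Nat.sub_add_cancel hab, hb]
  · left
    refine ⟨a - b, ?_⟩
    rw [← hb, ← Function.iterate_add_apply, Nat.sub_add_cancel hab, ha]

theorem anc_iff {u v : V} : T.Anc u v ↔ u = v ∨ T.Anc u (T.parent v) := by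
  constructor
  · rintro ⟨k, hk⟩
    cases k with
    | zero => exact Or.inl hk.symm
    | succ k => exact Or.inr ⟨k, hk⟩
  · rintro (rfl | ⟨k, hk⟩)
    · exact ⟨0, rfl⟩
    · exact ⟨k + 1, hk⟩

end RootedTree

section
variable {V C : Type} {T : RootedTree V} {label : V → C → Fin 3 → Prop}
  {state : V → C → Fin 3}

/-- Some edge with label `(c, q)` is above or at `v`. -/
def EE (T : RootedTree V) (label : V → C → Fin 3 → Prop) (c : C) (q : Fin 3) (v : V) : Prop :=
  ∃ w, w ≠ T.root ∧ label w c q ∧ T.Anc w v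

theorem EE_root {c : C} {q : Fin 3} : ¬ EE T label c q T.root := by
  rintro ⟨w, hw, _, ha⟩
  exact hw (RootedTree.Anc.root T ha)

theorem EE_step {c : C} {q : Fin 3} {v : V} (hv : v ≠ T.root) :
    EE T label c q v ↔ label v c q ∨ EE T label c q (T.parent v) := by
  constructor
  · rintro ⟨w, hw, hl, ha⟩
    rcases (T.anc_iff).mp ha with rfl | ha
    · exact Or.inl hl
    · exact Or.inr ⟨w, hw, hl, ha⟩
  · rintro (hl | ⟨w, hw, hl, ha⟩)
    · exact ⟨v, hv, hl, RootedTree.Anc.refl T v⟩
    · exact ⟨w, hw, hl, (T.anc_iff).mpr (Or.inr ha)⟩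

theorem IsPhylogeny.state_iff (h : IsPhylogeny T label state) (c : C) (v : V) :
    (state v c = 2 ↔ EE T label c 2 v) ∧
    (state v c = 1 ↔ EE T label c 1 v ∧ ¬ EE T label c 2 v) := by
  obtain ⟨k, hk⟩ := T.reaches_root v
  induction k generalizing v with
  | zero =>
    have hv : v = T.root := hk
    subst hv
    rw [h.state_root]
    simp [EE_root]
  | succ k ih =>
    by_cases hv : v = T.root
    · subst hv
      rw [h.state_root]
      simp [EE_root]
    · have ihp := ih (T.parent v) hk
      rw [EE_step hv, EE_step hv]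
      by_cases h2 : label v c 2
      · have := h.state_label v hv c 2 h2
        rw [this]
        simp [h2]
      · by_cases h1 : label v c 1
        · have hs := h.state_label v hv c 1 h1
          rw [hs]
          have hne : ¬ EE T label c 2 (T.parent v) := by
            rintro ⟨w, hw, hl, ha⟩
            obtain ⟨u, hu, hul, hne, hub⟩ := h.two_below_one w hw c hl
            have := h.perfect u v hu hv c 1 hul h1
            subst this
            have ha' : T.Anc w u := (T.anc_iff).mpr (Or.inr ha)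
            exact hne (RootedTree.Anc.antisymm T hub ha')
          simp [h1, h2, hne]
        · have hs := h.state_keep v hv c (fun q => by
            rcases q with ⟨q, hq⟩
            interval_cases q
            · exact h.no_zero v hv c
            · exact h1
            · exact h2)
          rw [hs]
          simpa [h1, h2] using ihp

theorem IsPhylogeny.EE_two_one (h : IsPhylogeny T label state) {c : C} {v : V}
    (hv : EE T label c 2 v) : EE T label c 1 v := by
  obtain ⟨w, hw, hl, ha⟩ := hv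
  obtain ⟨u, hu, hul, _, hub⟩ := h.two_below_one w hw c hl
  exact ⟨u, hu, hul, RootedTree.Anc.trans T hub ha⟩

end

section
variable {S C : Type} [DecidableEq S]

/-- The species with entry `e`. -/
def colSet (Om : Finset S) (M : S → C → Entry) (e : Entry) (c : C) : Finset S :=
  Om.filter (fun s => M s c = e)

open Classical in
theorem sol_of_tree {Om : Finset S} {M : S → C → Entry} {V : Type} {T : RootedTree V}
    {label : V → C → Fin 3 → Prop} {state : V → C → Fin 3} (h : IsPhylogeny T label state)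
    (hx : ∀ s ∈ Om, ∃ x, ∀ c, state x c ∈ (M s c).states) :
    ∃ W, Sol (colSet Om M .one) (colSet Om M .zeroTwo) W := by
  have hx' : ∀ s, ∃ x, s ∈ Om → ∀ c, state x c ∈ (M s c).states := by
    intro s
    by_cases hs : s ∈ Om
    · obtain ⟨x, hx⟩ := hx s hs
      exact ⟨x, fun _ => hx⟩
    · exact ⟨T.root, fun h => absurd h hs⟩
  choose x hx using hx'
  let cl : C → Fin 3 → Finset S := fun c q => Om.filter (fun s => EE T label c q (x s))
  have hlam : ∀ c q c' q', Lam (cl c q) (cl c' q') := by
    intro c q c' q'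
    by_cases h1 : ∃ w w', w ≠ T.root ∧ w' ≠ T.root ∧ label w c q ∧ label w' c' q' ∧ T.Anc w w'
    · obtain ⟨w, w', hw, hw', hl, hl', ha⟩ := h1
      right; right
      intro s hs
      simp only [cl, Finset.mem_filter] at hs ⊢
      obtain ⟨hs, w'', hw'', hl'', ha''⟩ := hs
      have := h.perfect _ _ hw' hw'' c' q' hl' hl''
      subst this
      exact ⟨hs, w, hw, hl, RootedTree.Anc.trans T ha ha''⟩
    · by_cases h2 : ∃ w w', w ≠ T.root ∧ w' ≠ T.root ∧ label w c q ∧ label w' c' q' ∧ T.Anc w' w
      · obtain ⟨w, w', hw, hw', hl, hl', ha⟩ := h2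
        right; left
        intro s hs
        simp only [cl, Finset.mem_filter] at hs ⊢
        obtain ⟨hs, w'', hw'', hl'', ha''⟩ := hs
        have := h.perfect _ _ hw hw'' c q hl hl''
        subst this
        exact ⟨hs, w', hw', hl', RootedTree.Anc.trans T ha ha''⟩
      · left
        rw [Finset.disjoint_left]
        intro s hs hs'
        simp only [cl, Finset.mem_filter] at hs hs'
        obtain ⟨_, w, hw, hl, ha⟩ := hs
        obtain ⟨_, w', hw', hl', ha'⟩ := hs'
        rcases RootedTree.Anc.comparable T ha ha' with hc | hc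
        · exact h1 ⟨w, w', hw, hw', hl, hl', hc⟩
        · exact h2 ⟨w, w', hw, hw', hl, hl', hc⟩
  have hU : ∀ c, UU (colSet Om M .one) (fun c => cl c 2) c = cl c 1 := by
    intro c
    ext s
    simp only [UU, colSet, cl, Finset.mem_union, Finset.mem_filter]
    have hst := h.state_iff c (x s)
    constructor
    · rintro (⟨hs, hM⟩ | ⟨hs, hE⟩)
      · refine ⟨hs, ?_⟩
        have := hx s hs c
        rw [hM] at this
        exact (hst.2.mp this).1
      · exact ⟨hs, h.EE_two_one hE⟩
    · rintro ⟨hs, hE⟩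
      by_cases h2 : EE T label c 2 (x s)
      · exact Or.inr ⟨hs, h2⟩
      · left
        refine ⟨hs, ?_⟩
        have h3 := hx s hs c
        rw [hst.2.mpr ⟨hE, h2⟩] at h3
        cases hM : M s c with
        | zero => rw [hM] at h3; simp [Entry.states] at h3
        | one => rfl
        | zeroTwo => rw [hM] at h3; simp [Entry.states] at h3
  refine ⟨fun c => cl c 2, fun c => ?_, ?_⟩
  · intro s hs
    simp only [cl, colSet, Finset.mem_filter] at hs ⊢
    refine ⟨hs.1, ?_⟩
    have h3 := hx s hs.1 c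
    rw [(h.state_iff c (x s)).1.mpr hs.2] at h3
    cases hM : M s c with
    | zero => rw [hM] at h3; simp [Entry.states] at h3
    | one => rw [hM] at h3; simp [Entry.states] at h3
    | zeroTwo => rfl
  · rintro X Y ⟨i, hi⟩ ⟨j, hj⟩
    rw [hU] at hi hj
    rcases hi with rfl | rfl <;> rcases hj with rfl | rfl <;> exact hlam _ _ _ _

end

section
variable {S C : Type} [DecidableEq S]

open Classical in
theorem tree_of_sol [Fintype C] {Om : Finset S} {M : S → C → Entry} {W : C → Finset S}
    (h : Sol (colSet Om M .one) (colSet Om M .zeroTwo) W) :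
    ∃ (V : Type) (_ : Fintype V) (T : RootedTree V) (label : V → C → Fin 3 → Prop)
      (state : V → C → Fin 3), IsPhylogeny T label state ∧
      ∀ s ∈ Om, ∃ x, ∀ c, state x c ∈ (M s c).states := by
  set A := colSet Om M .one with hAdef
  set D := colSet Om M .zeroTwo with hDdef
  have hdisj : ∀ c s, s ∈ A c → s ∉ W c := by
    intro c s hs hs'
    have := h.sub c hs'
    rw [hAdef, colSet, Finset.mem_filter] at hs
    rw [hDdef, colSet, Finset.mem_filter] at this
    rw [hs.2] at this
    exact absurd this.2 (by decide)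
  -- the nonempty clusters
  let Cls : Finset (Finset S) :=
    (Finset.univ.image (UU A W) ∪ Finset.univ.image W).filter (fun X => X.Nonempty)
  have hCls : ∀ X, X ∈ Cls ↔ Cl A W X ∧ X.Nonempty := by
    intro X
    simp only [Cls, Finset.mem_filter, Finset.mem_union, Finset.mem_image, Finset.mem_univ,
      true_and, Cl]
    constructor
    · rintro ⟨⟨i, hi⟩ | ⟨i, hi⟩, hn⟩
      · exact ⟨⟨i, Or.inl hi.symm⟩, hn⟩
      · exact ⟨⟨i, Or.inr hi.symm⟩, hn⟩
    · rintro ⟨⟨i, hi | hi⟩, hn⟩
      · exact ⟨Or.inl ⟨i, hi.symm⟩, hn⟩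
      · exact ⟨Or.inr ⟨i, hi.symm⟩, hn⟩
  have hlam : ∀ X ∈ Cls, ∀ Y ∈ Cls, Lam X Y := fun X hX Y hY =>
    h.lam X Y ((hCls X).mp hX).1 ((hCls Y).mp hY).1
  -- smallest members of a chain
  have hsmall : ∀ (P : Finset S → Prop) (x : S), (∀ X, P X → x ∈ X) →
      ∃ o : Option {X // X ∈ Cls}, (o = none → ∀ Y ∈ Cls, ¬ P Y) ∧
        ∀ X, o = some X → P X.1 ∧ ∀ Z ∈ Cls, P Z → X.1 ⊆ Z := by
    intro P x hP
    by_cases hex : ∃ Y ∈ Cls, P Y
    · obtain ⟨X, hX, hmin⟩ := Finset.exists_min_image (Cls.filter P) Finset.card (by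
        obtain ⟨Y, hY, hPY⟩ := hex
        exact ⟨Y, Finset.mem_filter.mpr ⟨hY, hPY⟩⟩)
      rw [Finset.mem_filter] at hX
      refine ⟨some ⟨X, hX.1⟩, by simp, ?_⟩
      rintro Y hY
      have e : X = Y.1 := congrArg Subtype.val (Option.some_injective _ hY)
      rw [← e]
      refine ⟨hX.2, fun Z hZ hPZ => ?_⟩
      have hc := hmin Z (Finset.mem_filter.mpr ⟨hZ, hPZ⟩)
      rcases hlam X hX.1 Z hZ with hh | hh | hh
      · exact absurd (hP Z hPZ) (Finset.disjoint_left.mp hh (hP X hX.2))
      · exact hh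
      · exact (Finset.eq_of_subset_of_card_le hh hc) ▸ Finset.Subset.refl _
    · push Not at hex
      exact ⟨none, fun _ => hex, by simp⟩
  have hpar : ∀ X : {X // X ∈ Cls}, ∃ o : Option {X // X ∈ Cls},
      (o = none → ∀ Y ∈ Cls, ¬ X.1 ⊂ Y) ∧
        ∀ Y, o = some Y → X.1 ⊂ Y.1 ∧ ∀ Z ∈ Cls, X.1 ⊂ Z → Y.1 ⊆ Z := by
    intro X
    obtain ⟨x, hx⟩ := ((hCls X.1).mp X.2).2
    exact hsmall (fun Y => X.1 ⊂ Y) x (fun Y hY => hY.1 hx)
  choose par hpar1 hpar2 using hpar
  have hexp : ∀ s : S, ∃ o : Option {X // X ∈ Cls}, (o = none → ∀ Y ∈ Cls, s ∉ Y) ∧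
        ∀ X, o = some X → s ∈ X.1 ∧ ∀ Z ∈ Cls, s ∈ Z → X.1 ⊆ Z := by
    intro s
    exact hsmall (fun Y => s ∈ Y) s (fun Y hY => hY)
  -- the tree
  let pr : Option {X // X ∈ Cls} → Option {X // X ∈ Cls} := fun o => o.bind par
  have hanc : ∀ n, ∀ X : {X // X ∈ Cls}, (Cls.filter (fun Y => X.1 ⊂ Y)).card = n →
      (∃ k, pr^[k] (some X) = none) ∧
      ∀ Y : {X // X ∈ Cls}, X.1 ⊆ Y.1 → ∃ k, pr^[k] (some X) = some Y := by
    intro n
    induction n using Nat.strong_induction_on with
    | _ n ih =>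
      intro X hn
      cases hp : par X with
      | none =>
        refine ⟨⟨1, hp⟩, fun Y hY => ⟨0, ?_⟩⟩
        have : ¬ X.1 ⊂ Y.1 := hpar1 X hp Y.1 Y.2
        have heq : X.1 = Y.1 := by
          by_contra hne
          exact this (Finset.ssubset_iff_subset_ne.mpr ⟨hY, hne⟩)
        exact congrArg some (Subtype.ext heq)
      | some Z =>
        have hZ := hpar2 X Z hp
        have hlt : (Cls.filter (fun Y => Z.1 ⊂ Y)).card < n := by
          rw [← hn]
          apply Finset.card_lt_card
          rw [Finset.ssubset_iff_of_subset]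
          · exact ⟨Z.1, Finset.mem_filter.mpr ⟨Z.2, hZ.1⟩, by simp⟩
          · intro Y hY
            rw [Finset.mem_filter] at hY ⊢
            exact ⟨hY.1, hZ.1.trans hY.2⟩
        obtain ⟨⟨k, hk⟩, h2⟩ := ih _ hlt Z rfl
        refine ⟨⟨k + 1, ?_⟩, fun Y hY => ?_⟩
        · rw [Function.iterate_succ_apply]
          change pr^[k] (par X) = none
          rw [hp, hk]
        · by_cases heq : X.1 = Y.1
          · exact ⟨0, congrArg some (Subtype.ext heq)⟩
          · obtain ⟨k', hk'⟩ := h2 Y (hZ.2 Y.1 Y.2 (Finset.ssubset_iff_subset_ne.mpr ⟨hY, heq⟩))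
            refine ⟨k' + 1, ?_⟩
            rw [Function.iterate_succ_apply]
            change pr^[k'] (par X) = some Y
            rw [hp, hk']
  let T : RootedTree (Option {X // X ∈ Cls}) :=
    { root := none
      parent := pr
      parent_root := rfl
      reaches_root := by
        intro v
        cases v with
        | none => exact ⟨0, rfl⟩
        | some X => exact (hanc _ X rfl).1 }
  let lab : Option {X // X ∈ Cls} → C → Fin 3 → Prop := fun v c q =>
    ∃ X, v = some X ∧ (A c).Nonempty ∧ ((q = 1 ∧ X.1 = UU A W c) ∨ (q = 2 ∧ X.1 = W c))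
  let st : Option {X // X ∈ Cls} → C → Fin 3 := fun v c =>
    match v with
    | none => 0
    | some X => if A c = ∅ then 0 else if X.1 ⊆ W c then 2 else if X.1 ⊆ UU A W c then 1 else 0
  have hUA : ∀ c, A c ⊆ UU A W c := fun c s hs => mem_UU.mpr (Or.inl hs)
  have hUW : ∀ c, W c ⊆ UU A W c := fun c s hs => mem_UU.mpr (Or.inr hs)
  refine ⟨Option {X // X ∈ Cls}, inferInstance, T, lab, st, ?_, ?_⟩
  · constructor
    · intro c; rfl
    · rintro v - c q ⟨X, rfl, ⟨a, ha⟩, ⟨rfl, hX⟩ | ⟨rfl, hX⟩⟩
      · have h1 : A c ≠ ∅ := Finset.nonempty_iff_ne_empty.mp ⟨a, ha⟩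
        have h2 : ¬ X.1 ⊆ W c := fun hs => hdisj c a ha (hs (hX ▸ hUA c ha))
        simp only [st, if_neg h1, if_neg h2]
        rw [if_pos (hX ▸ Finset.Subset.refl _)]
      · have h1 : A c ≠ ∅ := Finset.nonempty_iff_ne_empty.mp ⟨a, ha⟩
        simp only [st, if_neg h1]
        rw [if_pos (hX ▸ Finset.Subset.refl _)]
    · intro v hv c hl
      cases v with
      | none => exact absurd rfl hv
      | some X =>
        change st (some X) c = st (par X) c
        by_cases h1 : A c = ∅
        · have : st (some X) c = 0 := by simp only [st, if_pos h1]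
          rw [this]
          cases par X with
          | none => rfl
          | some Y => simp only [st, if_pos h1]
        · have hn1 : X.1 ≠ UU A W c := fun e => hl 1 ⟨X, rfl,
            Finset.nonempty_iff_ne_empty.mpr h1, Or.inl ⟨rfl, e⟩⟩
          have hn2 : X.1 ≠ W c := fun e => hl 2 ⟨X, rfl,
            Finset.nonempty_iff_ne_empty.mpr h1, Or.inr ⟨rfl, e⟩⟩
          obtain ⟨x0, hx0⟩ := ((hCls X.1).mp X.2).2
          have e1 : X.1 ⊆ UU A W c → UU A W c ∈ Cls ∧ X.1 ⊂ UU A W c := fun hs =>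
            ⟨(hCls _).mpr ⟨clU A W c, ⟨x0, hs hx0⟩⟩, Finset.ssubset_iff_subset_ne.mpr ⟨hs, hn1⟩⟩
          have e2 : X.1 ⊆ W c → W c ∈ Cls ∧ X.1 ⊂ W c := fun hs =>
            ⟨(hCls _).mpr ⟨clV A W c, ⟨x0, hs hx0⟩⟩, Finset.ssubset_iff_subset_ne.mpr ⟨hs, hn2⟩⟩
          cases hp : par X with
          | none =>
            have g1 : ¬ X.1 ⊆ UU A W c := fun hs => hpar1 X hp _ (e1 hs).1 (e1 hs).2
            have g2 : ¬ X.1 ⊆ W c := fun hs => hpar1 X hp _ (e2 hs).1 (e2 hs).2
            simp only [st, if_neg h1, if_neg g1, if_neg g2]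
          | some Y =>
            have hY := hpar2 X Y hp
            have g1 : X.1 ⊆ UU A W c ↔ Y.1 ⊆ UU A W c :=
              ⟨fun hs => hY.2 _ (e1 hs).1 (e1 hs).2, fun hs => hY.1.1.trans hs⟩
            have g2 : X.1 ⊆ W c ↔ Y.1 ⊆ W c :=
              ⟨fun hs => hY.2 _ (e2 hs).1 (e2 hs).2, fun hs => hY.1.1.trans hs⟩
            simp only [st, if_neg h1, g1, g2]
    · rintro u v - - c q ⟨X, rfl, _, hX⟩ ⟨Y, rfl, _, hY⟩
      have : X.1 = Y.1 := by
        rcases hX with ⟨h1, h2⟩ | ⟨h1, h2⟩ <;> rcases hY with ⟨h3, h4⟩ | ⟨h3, h4⟩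
        · rw [h2, h4]
        · rw [h1] at h3; exact absurd h3 (by decide)
        · rw [h1] at h3; exact absurd h3 (by decide)
        · rw [h2, h4]
      exact congrArg some (Subtype.ext this)
    · rintro v - c ⟨X, _, _, ⟨h1, _⟩ | ⟨h1, _⟩⟩
      · exact absurd h1 (by decide)
      · exact absurd h1 (by decide)
    · rintro v - c ⟨X, rfl, ⟨a, ha⟩, ⟨h1, _⟩ | ⟨_, hX⟩⟩
      · exact absurd h1 (by decide)
      · have hUc : UU A W c ∈ Cls := (hCls _).mpr ⟨clU A W c, ⟨a, hUA c ha⟩⟩
        refine ⟨some ⟨UU A W c, hUc⟩, by simp [T], ⟨_, rfl, ⟨a, ha⟩, Or.inl ⟨rfl, rfl⟩⟩, ?_, ?_⟩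
        · intro e
          have e' : UU A W c = X.1 := congrArg Subtype.val (Option.some_injective _ e)
          rw [hX] at e'
          exact hdisj c a ha (e' ▸ hUA c ha)
        · exact (hanc _ X rfl).2 ⟨UU A W c, hUc⟩ (by rw [hX]; exact hUW c)
  · intro s hs
    obtain ⟨o, ho1, ho2⟩ := hexp s
    refine ⟨o, fun c => ?_⟩
    have hAs : s ∈ A c ↔ M s c = .one := by
      rw [hAdef, colSet, Finset.mem_filter]; tauto
    have hDs : s ∈ D c ↔ M s c = .zeroTwo := by
      rw [hDdef, colSet, Finset.mem_filter]; tauto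
    cases o with
    | none =>
      have hn := ho1 rfl
      have : M s c ≠ .one := by
        intro hM
        have hsA := hAs.mpr hM
        exact hn _ ((hCls _).mpr ⟨clU A W c, ⟨s, hUA c hsA⟩⟩) (hUA c hsA)
      change (0 : Fin 3) ∈ (M s c).states
      cases hM : M s c with
      | zero => simp [Entry.states]
      | one => exact absurd hM this
      | zeroTwo => simp [Entry.states]
    | some X =>
      obtain ⟨hsX, hmin⟩ := ho2 X rfl
      cases hM : M s c with
      | zero =>
        have h1 : s ∉ A c := fun h' => by rw [hAs, hM] at h'; exact absurd h' (by decide)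
        have h2 : s ∉ W c := fun h' => by
          have := h.sub c h'
          rw [hDs, hM] at this; exact absurd this (by decide)
        have h3 : ¬ X.1 ⊆ W c := fun h' => h2 (h' hsX)
        have h4 : ¬ X.1 ⊆ UU A W c := fun h' => by
          rcases mem_UU.mp (h' hsX) with h5 | h5
          · exact h1 h5
          · exact h2 h5
        simp only [st, if_neg h3, if_neg h4]
        split <;> simp [Entry.states]
      | one =>
        have hsA := hAs.mpr hM
        have h1 : A c ≠ ∅ := Finset.nonempty_iff_ne_empty.mp ⟨s, hsA⟩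
        have h3 : ¬ X.1 ⊆ W c := fun h' => hdisj c s hsA (h' hsX)
        have h4 : X.1 ⊆ UU A W c := hmin _
          ((hCls _).mpr ⟨clU A W c, ⟨s, hUA c hsA⟩⟩) (hUA c hsA)
        simp only [st, if_neg h1, if_neg h3, if_pos h4]
        simp [Entry.states]
      | zeroTwo =>
        have h1 : s ∉ A c := fun h' => by rw [hAs, hM] at h'; exact absurd h' (by decide)
        by_cases h0 : A c = ∅
        · simp only [st, if_pos h0]
          simp [Entry.states]
        · by_cases h3 : X.1 ⊆ W c
          · simp only [st, if_neg h0, if_pos h3]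
            simp [Entry.states]
          · have h4 : ¬ X.1 ⊆ UU A W c := fun h' => by
              rcases mem_UU.mp (h' hsX) with h5 | h5
              · exact h1 h5
              · exact h3 (hmin _ ((hCls _).mpr ⟨clV A W c, ⟨s, h5⟩⟩) h5)
            simp only [st, if_neg h0, if_neg h3, if_neg h4]
            simp [Entry.states]

/-- A matrix of natural size, extended by `{0}`. -/
def extend {n m : ℕ} (M : Fin n → Fin m → Entry) (s : ℕ) (c : Fin m) : Entry :=
  if h : s < n then M ⟨s, h⟩ c else .zero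

/-- There is a solution tree if and only if there is a laminar family. -/
theorem hasSolution_iff {n m : ℕ} (M : Fin n → Fin m → Entry) :
    HasSolution M ↔ ∃ W, Sol (colSet (Finset.range n) (extend M) .one)
      (colSet (Finset.range n) (extend M) .zeroTwo) W := by
  constructor
  · rintro ⟨V, _, T, label, state, h, hx⟩
    refine sol_of_tree h (fun s hs => ?_)
    rw [Finset.mem_range] at hs
    obtain ⟨x, hx⟩ := hx ⟨s, hs⟩
    refine ⟨x, fun c => ?_⟩
    simp only [extend, dif_pos hs]
    exact hx c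
  · rintro ⟨W, hW⟩
    obtain ⟨V, i, T, label, state, h, hx⟩ := tree_of_sol hW
    refine ⟨V, i, T, label, state, h, fun s => ?_⟩
    obtain ⟨x, hx⟩ := hx s.1 (Finset.mem_range.mpr s.2)
    refine ⟨x, fun c => ?_⟩
    have := hx c
    simp only [extend, dif_pos s.2] at this
    exact this

end

end Pool.Agent.Lib.MP_9ed008_lc
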