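import Pool.Agent.Lib.MP_9ed008_lc.Algo
import Pool.Agent.Lib.MP_9ed008_lc.TreeEquiv

/-!
# Instances as strings, and the full decision procedure
-/

namespace Pool.Agent.Lib.MP_9ed008_lc

/-- one step of splitting -/
def splitStep (st : List (List Sym) × List Sym) (x : Sym) : List (List Sym) × List Sym :=
  bif decide (x = Sym.sep) then (st.2.reverse :: st.1, []) else (st.1, x :: st.2)

/-- split a string at the separators -/
def splitB (l : List Sym) : List (List Sym) := ((l.foldl splitStep ([], [])).1).reverse

theorem foldl_splitStep_row (r : List Sym) (hr : Sym.sep ∉ r) (out : List (List Sym))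
    (cur : List Sym) : r.foldl splitStep (out, cur) = (out, r.reverse ++ cur) := by
  induction r generalizing cur with
  | nil => rfl
  | cons x r ih =>
    rw [List.mem_cons, not_or] at hr
    rw [List.foldl_cons]
    have : splitStep (out, cur) x = (out, x :: cur) := by
      have hx : x ≠ Sym.sep := fun h => hr.1 h.symm
      simp [splitStep, hx]
    rw [this, ih hr.2]
    simp

theorem foldl_splitStep (rows : List (List Sym)) (hr : ∀ r ∈ rows, Sym.sep ∉ r)
    (out : List (List Sym)) :
    (rows.flatMap (fun r => r ++ [Sym.sep])).foldl splitStep (out, []) =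
      (rows.reverse ++ out, []) := by
  induction rows generalizing out with
  | nil => rfl
  | cons r rows ih =>
    rw [List.flatMap_cons, List.foldl_append, List.foldl_append,
      foldl_splitStep_row r (hr r List.mem_cons_self)]
    have : [Sym.sep].foldl splitStep (out, r.reverse ++ []) = (r :: out, []) := by
      simp [splitStep]
    rw [this, ih (fun r' hr' => hr r' (List.mem_cons_of_mem _ hr'))]
    simp

theorem splitB_flatMap (rows : List (List Sym)) (hr : ∀ r ∈ rows, Sym.sep ∉ r) :
    splitB (rows.flatMap (fun r => r ++ [Sym.sep])) = rows := by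
  rw [splitB, foldl_splitStep rows hr]
  simp

theorem Entry.sym_ne_sep (e : Entry) : e.sym ≠ Sym.sep := by
  cases e <;> simp [Entry.sym]

theorem Inst.split (I : Inst) : splitB I.encode = List.replicate I.m Sym.tick :: I.rows := by
  unfold Inst.encode
  refine splitB_flatMap _ (fun r hr => ?_)
  rw [List.mem_cons] at hr
  rcases hr with rfl | hr
  · intro h
    have := List.eq_of_mem_replicate h
    exact absurd this (by decide)
  · unfold Inst.rows at hr
    rw [List.mem_ofFn] at hr
    obtain ⟨s, rfl⟩ := hr
    intro h
    rw [List.mem_ofFn] at h
    obtain ⟨c, hc⟩ := h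
    exact Entry.sym_ne_sep _ hc

/-- the entry in row `s` and column `c` -/
def symAt (rows : List (List Sym)) (s c : ℕ) : Sym := ((rows[s]?.getD [])[c]?).getD Sym.sep

/-- the species with symbol `e` in column `c` -/
def colB (rows : List (List Sym)) (e : Sym) (c : ℕ) : List ℕ :=
  (List.range rows.length).filter (fun s => decide (symAt rows s c = e))

/-- the characters -/
def charsB (m : ℕ) (rows : List (List Sym)) : List (List ℕ × List ℕ) :=
  (List.range m).map (fun c => (colB rows Sym.one c, colB rows Sym.zeroTwo c))

/-- the decision procedure on the blocks -/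
def solveBlocks (b : List (List Sym)) : Bool :=
  decideB (List.range b.tail.length) (charsB (b.head?.getD []).length b.tail)

/-- the decision procedure on strings -/
def solveB (l : List Sym) : Bool := solveBlocks (splitB l)

theorem Inst.symAt (I : Inst) (s : Fin I.n) (c : Fin I.m) :
    symAt I.rows s c = (I.M s c).sym := by
  unfold Pool.Agent.Lib.MP_9ed008_lc.symAt Inst.rows
  simp

theorem Inst.length_rows (I : Inst) : I.rows.length = I.n := by
  simp [Inst.rows]

theorem Inst.colB_eq (I : Inst) (e : Entry) (c : Fin I.m) :
    (colB I.rows e.sym c).toFinset = colSet (Finset.range I.n) (extend I.M) e c := by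
  ext s
  rw [List.mem_toFinset, colB, List.mem_filter, List.mem_range, I.length_rows, colSet,
    Finset.mem_filter, Finset.mem_range, decide_eq_true_iff]
  refine and_congr_right (fun hs => ?_)
  have := I.symAt ⟨s, hs⟩ c
  simp only at this
  rw [this, extend, dif_pos hs]
  generalize I.M ⟨s, hs⟩ c = e'
  cases e' <;> cases e <;> simp [Entry.sym]

/-- Correctness of the decision procedure. -/
theorem solveB_encode (I : Inst) : solveB I.encode = true ↔ HasSolution I.M := by
  rw [hasSolution_iff, solveB, solveBlocks, I.split]
  simp only [List.tail_cons, List.head?_cons, Option.getD_some, List.length_replicate]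
  rw [I.length_rows]
  have hom : (List.range I.n).toFinset = Finset.range I.n := by
    ext x; simp
  refine decideB_iff (ι := Fin I.m) ?_ ?_ ?_ ?_ ?_
  · intro P
    unfold charsB
    constructor
    · intro h j
      have := h (colB I.rows Sym.one j, colB I.rows Sym.zeroTwo j)
        (List.mem_map.mpr ⟨j, List.mem_range.mpr j.2, rfl⟩)
      have e1 := I.colB_eq .one j
      have e2 := I.colB_eq .zeroTwo j
      simp only [Entry.sym] at e1 e2
      rw [e1, e2] at this
      exact this
    · intro h c hc
      rw [List.mem_map] at hc
      obtain ⟨j, hj, rfl⟩ := hc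
      rw [List.mem_range] at hj
      have e1 := I.colB_eq .one ⟨j, hj⟩
      have e2 := I.colB_eq .zeroTwo ⟨j, hj⟩
      simp only [Entry.sym] at e1 e2
      rw [e1, e2]
      exact h ⟨j, hj⟩
  · intro j
    rw [hom]
    exact Finset.filter_subset _ _
  · intro j
    rw [hom]
    exact Finset.filter_subset _ _
  · intro j
    rw [Finset.disjoint_left]
    intro s hs hs'
    rw [colSet, Finset.mem_filter] at hs hs'
    rw [hs.2] at hs'
    exact absurd hs'.2 (by decide)
  · rw [Fintype.card_fin, charsB, List.length_map, List.length_range]

/-- The encoding is injective. -/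
theorem Inst.encode_injective : Function.Injective Inst.encode := by
  intro I J h
  have h1 := congrArg splitB h
  rw [I.split, J.split] at h1
  rw [List.cons.injEq] at h1
  obtain ⟨h1, h2⟩ := h1
  have hm := congrArg List.length h1
  rw [List.length_replicate, List.length_replicate] at hm
  have hn := congrArg List.length h2
  rw [I.length_rows, J.length_rows] at hn
  obtain ⟨n, m, M⟩ := I
  obtain ⟨n', m', M'⟩ := J
  simp only at hm hn
  subst hm
  subst hn
  congr 1
  unfold Inst.rows at h2
  have h3 := List.ofFn_injective h2
  funext s c
  have h4 := List.ofFn_injective (congrFun h3 s)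
  have h5 := congrFun h4 c
  simp only at h5
  generalize M s c = e at h5 ⊢
  generalize M' s c = e' at h5 ⊢
  cases e <;> cases e' <;> simp [Entry.sym] at h5 ⊢

end Pool.Agent.Lib.MP_9ed008_lc
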