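import Pool.Agent.Lib.PolyTime.Typed

/-!
# Polynomial time functions: working layer

`PolyTime` is `PolyF` of `Pool.Agent.Lib.PolyTime`, which compiles to Turing machines; this file
gives the closure lemmas in the form used by the decision procedure.
-/

set_option autoImplicit false

namespace Pool.Agent.Lib.MP_9ed008_lc.PT

open Pool.Agent.Lib.PolyTime

variable {α β γ δ σ τ : Type} [TEnc α] [TEnc β] [TEnc γ] [TEnc δ] [TEnc σ] [TEnc τ]

/-- Polynomial time computable functions. -/
def PolyTime {α β : Type} [TEnc α] [TEnc β] (f : α → β) : Prop := PolyF f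

/-- The size of the tree of an element. -/
def esize {α : Type} [TEnc α] (a : α) : ℕ := 2 * sz a + 1

theorem esize_pos (a : α) : 1 ≤ esize a := by unfold esize; omega

theorem esize_pair (a : α) (b : β) : esize (a, b) = esize a + esize b + 1 := by
  unfold esize; rw [sz_prod]; ring

theorem esize_nil : esize ([] : List α) = 1 := by
  unfold esize; rw [sz_nil]

theorem esize_cons (a : α) (l : List α) : esize (a :: l) = esize a + esize l + 1 := by
  unfold esize; rw [sz_cons]; ring

theorem esize_append (l l' : List α) : esize (l ++ l') + 1 = esize l + esize l' := by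
  induction l with
  | nil => rw [esize_nil, List.nil_append]; omega
  | cons a l ih => rw [List.cons_append, esize_cons, esize_cons]; omega

theorem esize_reverse (l : List α) : esize l.reverse = esize l := by
  induction l with
  | nil => rfl
  | cons a l ih =>
    have := esize_append l.reverse [a]
    rw [List.reverse_cons, esize_cons]
    rw [esize_cons, esize_nil] at this
    omega

theorem length_lt_esize (l : List α) : l.length < esize l := by
  induction l with
  | nil => simp [esize_nil]
  | cons a l ih => rw [esize_cons, List.length_cons]; omega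

theorem esize_mem {l : List α} {a : α} (h : a ∈ l) : esize a < esize l := by
  induction l with
  | nil => simp at h
  | cons b l ih =>
    rw [esize_cons]
    rcases List.mem_cons.1 h with h | h
    · subst h; omega
    · have := ih h; omega

theorem esize_bool (b : Bool) : esize b ≤ 3 := by
  have := sz_bool_le b
  unfold esize
  omega

/-- Polynomially bounded functions of the input length. -/
def PolyBd (t : α → ℕ) : Prop := ∃ c k : ℕ, ∀ a, t a ≤ c * esize a ^ k

theorem PolyBd.of_le {t t' : α → ℕ} (h : PolyBd t') (hle : ∀ a, t a ≤ t' a) : PolyBd t := by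
  obtain ⟨c, k, h⟩ := h
  exact ⟨c, k, fun a => (hle a).trans (h a)⟩

theorem PolyBd.const (n : ℕ) : PolyBd (fun _ : α => n) := ⟨n, 0, fun a => by simp⟩

theorem PolyBd.self : PolyBd (fun a : α => esize a) := ⟨1, 1, fun a => by simp⟩

theorem PolyBd.add {t t' : α → ℕ} (h : PolyBd t) (h' : PolyBd t') :
    PolyBd (fun a => t a + t' a) := by
  obtain ⟨c, k, h⟩ := h
  obtain ⟨c', k', h'⟩ := h'
  refine ⟨c + c', max k k', fun a => ?_⟩
  have h1 : esize a ^ k ≤ esize a ^ (max k k') :=
    Nat.pow_le_pow_right (esize_pos a) (le_max_left _ _)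
  have h2 : esize a ^ k' ≤ esize a ^ (max k k') :=
    Nat.pow_le_pow_right (esize_pos a) (le_max_right _ _)
  calc t a + t' a ≤ c * esize a ^ k + c' * esize a ^ k' := add_le_add (h a) (h' a)
    _ ≤ c * esize a ^ (max k k') + c' * esize a ^ (max k k') :=
      add_le_add (Nat.mul_le_mul_left _ h1) (Nat.mul_le_mul_left _ h2)
    _ = (c + c') * esize a ^ (max k k') := by ring

theorem PolyBd.mul {t t' : α → ℕ} (h : PolyBd t) (h' : PolyBd t') :
    PolyBd (fun a => t a * t' a) := by
  obtain ⟨c, k, h⟩ := h
  obtain ⟨c', k', h'⟩ := h'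
  refine ⟨c * c', k + k', fun a => ?_⟩
  calc t a * t' a ≤ (c * esize a ^ k) * (c' * esize a ^ k') := Nat.mul_le_mul (h a) (h' a)
    _ = (c * c') * esize a ^ (k + k') := by ring

theorem PolyBd.pow {t : α → ℕ} (h : PolyBd t) (n : ℕ) : PolyBd (fun a => t a ^ n) := by
  obtain ⟨c, k, h⟩ := h
  refine ⟨c ^ n, k * n, fun a => ?_⟩
  calc t a ^ n ≤ (c * esize a ^ k) ^ n := Nat.pow_le_pow_left (h a) n
    _ = c ^ n * esize a ^ (k * n) := by rw [mul_pow, pow_mul]

theorem PolyBd.eval (Q : Polynomial ℕ) : PolyBd (fun a : α => Q.eval (sz a)) := by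
  induction Q using Polynomial.induction_on' with
  | add p q hp hq => simpa using hp.add hq
  | monomial n a =>
    refine ((PolyBd.const a).mul (PolyBd.self.pow n)).of_le fun x => ?_
    rw [Polynomial.eval_monomial]
    exact Nat.mul_le_mul_left _ (Nat.pow_le_pow_left (by unfold esize; omega) _)

open Polynomial in
theorem PolyBd.toPoly {t : α → ℕ} (h : PolyBd t) : ∃ Q : Polynomial ℕ, ∀ a, t a ≤ Q.eval (sz a) := by
  obtain ⟨c, k, h⟩ := h
  refine ⟨C c * (2 * X + 1) ^ k, fun a => (h a).trans (le_of_eq ?_)⟩
  simp [esize]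

theorem PolyTime.polyBd {f : α → β} (h : PolyTime f) : PolyBd (fun a => esize (f a)) := by
  obtain ⟨Q, hQ⟩ := PolyF.bound h
  refine (((PolyBd.const 2).mul (PolyBd.eval Q)).add (.const 1)).of_le fun a => ?_
  have := hQ a
  unfold esize
  omega

theorem PolyTime.of_eq {f g : α → β} (hf : PolyTime f) (h : ∀ a, f a = g a) : PolyTime g :=
  (funext h : f = g) ▸ hf

theorem PolyTime.id : PolyTime (fun a : α => a) := PolyF.id

theorem PolyTime.comp {f : β → γ} {g : α → β} (hf : PolyTime f) (hg : PolyTime g) :
    PolyTime (fun a => f (g a)) := PolyF.comp hf hg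

theorem PolyTime.pair {f : α → β} {g : α → γ} (hf : PolyTime f) (hg : PolyTime g) :
    PolyTime (fun a => (f a, g a)) := PolyF.pair hf hg

theorem PolyTime.fst : PolyTime (fun p : α × β => p.1) := PolyF.fst'

theorem PolyTime.snd : PolyTime (fun p : α × β => p.2) := PolyF.snd'

theorem PolyTime.const (b : β) : PolyTime (fun _ : α => b) := PolyF.const b

theorem PolyTime.cond {c : α → Bool} {f g : α → β} (hc : PolyTime c) (hf : PolyTime f)
    (hg : PolyTime g) : PolyTime (fun a => bif c a then f a else g a) := by
  have := PolyF.cond (c := c) (f := f) (g := g) hc hf hg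
  exact this

theorem PolyTime.list_cons {f : α → β} {g : α → List β} (hf : PolyTime f) (hg : PolyTime g) :
    PolyTime (fun a => f a :: g a) := PolyF.cons hf hg

theorem PolyTime.list_casesOn {l : α → List β} {f : α → γ} {g : α × (β × List β) → γ}
    (hl : PolyTime l) (hf : PolyTime f) (hg : PolyTime g) :
    PolyTime (fun a => (l a).casesOn (motive := fun _ => γ) (f a) (fun b l' => g (a, (b, l')))) := by
  refine PolyF.listCases (l := l) (g := f) (h := g) hl hf hg ?_ ?_
  · intro x hx
    rw [hx]
  · intro x b t hx
    rw [hx]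

/-- Left folds with polynomially bounded intermediate results. -/
theorem PolyTime.foldl {f : α → List β} {g : α → σ} {h : α × (β × σ) → σ} {T : α → ℕ}
    (hf : PolyTime f) (hg : PolyTime g) (hh : PolyTime h) (hT : PolyBd T)
    (hsz : ∀ a l1 l2, f a = l1 ++ l2 →
      esize (l1.foldl (fun s b => h (a, (b, s))) (g a)) ≤ T a) :
    PolyTime (fun a => (f a).foldl (fun s b => h (a, (b, s))) (g a)) := by
  obtain ⟨Q, hQ⟩ := hT.toPoly
  refine PolyF.foldl (l := f) (i := g) (f := fun a s b => h (a, (b, s))) hf hg ?_ ⟨Q, ?_⟩
  · exact PolyF.comp (f := h) (g := fun p : α × σ × β => (p.1, (p.2.2, p.2.1))) hh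
      (PolyF.pair PolyF.fst' (PolyF.pair (PolyF.snd (PolyF.snd')) (PolyF.fst PolyF.snd')))
  · intro a k _
    have := (hsz a ((f a).take k) ((f a).drop k) (List.take_append_drop k (f a)).symm).trans (hQ a)
    unfold esize at this
    omega

/-- Unary numbers and lists of units have the same trees. -/
theorem enc_units (n : ℕ) : enc (List.replicate n ()) = enc n := by
  induction n with
  | zero => rfl
  | succ n ih =>
    rw [List.replicate_succ, enc_cons, ih, enc_succ]
    rfl

/-- The units of a unary number. -/
theorem PolyTime.units {f : α → ℕ} (hf : PolyTime f) :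
    PolyTime (fun a => List.replicate (f a) ()) :=
  PolyF.of_enc hf (fun a => a) (fun _ => rfl) (fun a => enc_units (f a))

theorem PolyTime.of_units {f : α → ℕ} (hf : PolyTime (fun a => List.replicate (f a) ())) :
    PolyTime f :=
  PolyF.of_enc hf (fun a => a) (fun _ => rfl) (fun a => (enc_units (f a)).symm)

theorem PolyTime.option_toList {f : α → Option β} (hf : PolyTime f) :
    PolyTime (fun a => (f a).toList) :=
  PolyF.of_enc hf (fun a => a) (fun _ => rfl) (fun a => by cases f a <;> rfl)

theorem PolyTime.option_of_toList {f : α → Option β} (hf : PolyTime (fun a => (f a).toList)) :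
    PolyTime f :=
  PolyF.of_enc hf (fun a => a) (fun _ => rfl) (fun a => by cases f a <;> rfl)

theorem esize_nat (n : ℕ) : esize n = 2 * n + 1 := by
  unfold esize
  rw [sz_nat]

end Pool.Agent.Lib.MP_9ed008_lc.PT
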