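import Pool.Agent.Lib.MP_9ed008_lc.PT

/-!
# Polynomial time functions on lists, options and unary numbers

Adapted from the library `Pool.Agent.Lib.MP_2ca8f5_lc.Lists` of another agent.
-/

set_option autoImplicit false

namespace Pool.Agent.Lib.MP_9ed008_lc.PT

open Pool.Agent.Lib.PolyTime

variable {α β γ δ σ τ : Type} [TEnc α] [TEnc β] [TEnc γ] [TEnc δ] [TEnc σ] [TEnc τ]

theorem PolyTime.option_some {f : α → β} (hf : PolyTime f) : PolyTime (fun a => some (f a)) :=
  PolyF.some hf

/-- Measured left folds. -/
theorem PolyTime.foldl_mu {f : α → List β} {g : α → σ} {h : α × (β × σ) → σ} {K : α → ℕ}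
    (μ : σ → ℕ) (C : ℕ) (hf : PolyTime f) (hg : PolyTime g) (hh : PolyTime h)
    (hμ : ∀ s, esize s ≤ C * μ s + C) (hg0 : PolyBd (fun a => μ (g a))) (hK : PolyBd K)
    (hgrow : ∀ a, ∀ b ∈ f a, ∀ s, μ (h (a, (b, s))) ≤ μ s + K a) :
    PolyTime (fun a => (f a).foldl (fun s b => h (a, (b, s))) (g a)) := by
  have hT : PolyBd (fun a => C * (μ (g a) + esize (f a) * K a) + C) :=
    ((PolyBd.const C).mul (hg0.add (hf.polyBd.mul hK))).add (.const C)
  refine PolyTime.foldl hf hg hh hT ?_
  intro a l1 l2 hl
  have key : ∀ (l : List β), (∀ b ∈ l, b ∈ f a) → ∀ s,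
      μ (l.foldl (fun s b => h (a, (b, s))) s) ≤ μ s + l.length * K a := by
    intro l
    induction l with
    | nil => intro _ s; simp
    | cons b l ih =>
      intro hb s
      have h1 := ih (fun b' hb' => hb b' (List.mem_cons_of_mem _ hb')) (h (a, (b, s)))
      have h2 := hgrow a b (hb b List.mem_cons_self) s
      rw [List.foldl_cons, List.length_cons]
      calc _ ≤ μ (h (a, (b, s))) + l.length * K a := h1
        _ ≤ μ s + K a + l.length * K a := Nat.add_le_add_right h2 _
        _ = μ s + (l.length + 1) * K a := by ring
  have h1 := key l1 (fun b hb => by rw [hl]; exact List.mem_append_left _ hb) (g a)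
  have h2 : l1.length ≤ esize (f a) := by
    have h3 := length_lt_esize (f a)
    rw [hl, List.length_append] at h3
    rw [hl]
    omega
  refine (hμ _).trans ?_
  refine Nat.add_le_add_right (Nat.mul_le_mul_left _ (h1.trans ?_)) _
  exact Nat.add_le_add_left (Nat.mul_le_mul_right _ h2) _

/-- Left folds with additive growth. -/
theorem PolyTime.foldl_add {f : α → List β} {g : α → σ} {h : α × (β × σ) → σ} {K : α → ℕ}
    (hf : PolyTime f) (hg : PolyTime g) (hh : PolyTime h) (hK : PolyBd K)
    (hgrow : ∀ a, ∀ b ∈ f a, ∀ s, esize (h (a, (b, s))) ≤ esize s + K a) :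
    PolyTime (fun a => (f a).foldl (fun s b => h (a, (b, s))) (g a)) :=
  PolyTime.foldl_mu (fun s => esize s) 1 hf hg hh (fun s => by omega) hg.polyBd hK hgrow

/-- A polynomial bound for a function applied to the members of a list. -/
theorem PolyTime.bound_mem {f : α → List β} {g : α × β → γ} (hf : PolyTime f) (hg : PolyTime g) :
    ∃ K : α → ℕ, PolyBd K ∧ ∀ a, ∀ b ∈ f a, esize (g (a, b)) ≤ K a := by
  obtain ⟨c, k, h⟩ := hg.polyBd
  refine ⟨fun a => c * (esize a + esize (f a) + 1) ^ k, (PolyBd.const c).mul
    (((PolyBd.self.add hf.polyBd).add (.const 1)).pow k), ?_⟩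
  intro a b hb
  refine (h (a, b)).trans (Nat.mul_le_mul_left _ (Nat.pow_le_pow_left ?_ _))
  have := esize_mem hb
  rw [esize_pair]
  omega

theorem PolyTime.reverse {f : α → List β} (hf : PolyTime f) :
    PolyTime (fun a => (f a).reverse) := by
  have h1 : PolyTime (fun a => (f a).foldl (fun s b => b :: s) []) := by
    refine PolyTime.foldl_add (g := fun _ => []) (h := fun x : α × (β × List β) => x.2.1 :: x.2.2)
      (K := fun a => esize (f a) + 1) hf (.const _) ?_ (hf.polyBd.add (.const 1)) ?_
    · exact PolyTime.list_cons (PolyTime.fst.comp .snd) (PolyTime.snd.comp .snd)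
    · intro a b hb s
      have := esize_mem hb
      simp only
      rw [esize_cons]
      omega
  refine h1.of_eq fun a => ?_
  rw [List.foldl_flip_cons_eq_append', List.append_nil]

theorem PolyTime.append {f g : α → List β} (hf : PolyTime f) (hg : PolyTime g) :
    PolyTime (fun a => f a ++ g a) := by
  have h1 : PolyTime (fun a => ((f a).reverse).foldl (fun s b => b :: s) (g a)) := by
    refine PolyTime.foldl_add (h := fun x : α × (β × List β) => x.2.1 :: x.2.2)
      (K := fun a => esize (f a) + 1) hf.reverse hg ?_ (hf.polyBd.add (.const 1)) ?_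
    · exact PolyTime.list_cons (PolyTime.fst.comp .snd) (PolyTime.snd.comp .snd)
    · intro a b hb s
      have := esize_mem (List.mem_reverse.1 hb)
      simp only
      rw [esize_cons]
      omega
  refine h1.of_eq fun a => ?_
  rw [List.foldl_flip_cons_eq_append', List.reverse_reverse]

theorem PolyTime.map {f : α → List β} {g : α × β → γ} (hf : PolyTime f) (hg : PolyTime g) :
    PolyTime (fun a => (f a).map (fun b => g (a, b))) := by
  obtain ⟨K, hK, hKb⟩ := PolyTime.bound_mem hf hg
  have h1 : PolyTime (fun a => (f a).foldl (fun s b => g (a, b) :: s) []) := by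
    refine PolyTime.foldl_add (g := fun _ => [])
      (h := fun x : α × (β × List γ) => g (x.1, x.2.1) :: x.2.2)
      (K := fun a => K a + 1) hf (.const _) ?_ (hK.add (.const 1)) ?_
    · exact PolyTime.list_cons (hg.comp (PolyTime.fst.pair (PolyTime.fst.comp .snd)))
        (PolyTime.snd.comp .snd)
    · intro a b hb s
      have := hKb a b hb
      simp only
      rw [esize_cons]
      omega
  refine h1.reverse.of_eq fun a => ?_
  have : ∀ (l : List β) (s : List γ), (l.foldl (fun s b => g (a, b) :: s) s).reverse
      = s.reverse ++ l.map (fun b => g (a, b)) := by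
    intro l
    induction l with
    | nil => intro s; simp
    | cons b l _ => intro s; simp
  rw [this]
  simp

theorem PolyTime.filter {f : α → List β} {p : α × β → Bool} (hf : PolyTime f)
    (hp : PolyTime p) : PolyTime (fun a => (f a).filter (fun b => p (a, b))) := by
  have h1 : PolyTime (fun a => (f a).foldl
      (fun s b => bif p (a, b) then b :: s else s) []) := by
    refine PolyTime.foldl_add (g := fun _ => [])
      (h := fun x : α × (β × List β) => bif p (x.1, x.2.1) then x.2.1 :: x.2.2 else x.2.2)
      (K := fun a => esize (f a) + 1) hf (.const _) ?_ (hf.polyBd.add (.const 1)) ?_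
    · exact PolyTime.cond (hp.comp (PolyTime.fst.pair (PolyTime.fst.comp .snd)))
        (PolyTime.list_cons (PolyTime.fst.comp .snd) (PolyTime.snd.comp .snd))
        (PolyTime.snd.comp .snd)
    · intro a b hb s
      have := esize_mem hb
      simp only
      cases p (a, b)
      · simp only [cond_false]; omega
      · simp only [cond_true]
        rw [esize_cons]
        omega
  refine h1.reverse.of_eq fun a => ?_
  have : ∀ (l : List β) (s : List β),
      (l.foldl (fun s b => bif p (a, b) then b :: s else s) s).reverse
      = s.reverse ++ l.filter (fun b => p (a, b)) := by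
    intro l
    induction l with
    | nil => intro s; simp
    | cons b l ih =>
      intro s
      rw [List.foldl_cons, ih, List.filter_cons]
      cases p (a, b) <;> simp
  rw [this]
  simp

theorem PolyTime.not {f : α → Bool} (hf : PolyTime f) : PolyTime (fun a => !(f a)) :=
  (PolyTime.cond hf (.const false) (.const true)).of_eq fun a => by cases f a <;> rfl

theorem PolyTime.and {f g : α → Bool} (hf : PolyTime f) (hg : PolyTime g) :
    PolyTime (fun a => f a && g a) :=
  (PolyTime.cond hf hg (.const false)).of_eq fun a => by cases f a <;> rfl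

theorem PolyTime.or {f g : α → Bool} (hf : PolyTime f) (hg : PolyTime g) :
    PolyTime (fun a => f a || g a) :=
  (PolyTime.cond hf (.const true) hg).of_eq fun a => by cases f a <;> rfl

theorem PolyTime.xor {f g : α → Bool} (hf : PolyTime f) (hg : PolyTime g) :
    PolyTime (fun a => Bool.xor (f a) (g a)) :=
  (PolyTime.cond hf hg.not hg).of_eq fun a => by cases f a <;> cases g a <;> rfl

theorem PolyTime.all {f : α → List β} {p : α × β → Bool} (hf : PolyTime f)
    (hp : PolyTime p) : PolyTime (fun a => (f a).all (fun b => p (a, b))) := by
  have h1 : PolyTime (fun a => (f a).foldl (fun s b => s && p (a, b)) true) := by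
    refine PolyTime.foldl_add (g := fun _ => true)
      (h := fun x : α × (β × Bool) => x.2.2 && p (x.1, x.2.1))
      (K := fun _ => 3) hf (.const _) ?_ (.const 3) ?_
    · exact PolyTime.and (PolyTime.snd.comp .snd)
        (hp.comp (PolyTime.fst.pair (PolyTime.fst.comp .snd)))
    · intro a b _ s
      have := esize_bool (s && p (a, b))
      simp only
      omega
  refine h1.of_eq fun a => ?_
  have : ∀ (l : List β) (s : Bool), l.foldl (fun s b => s && p (a, b)) s
      = (s && l.all (fun b => p (a, b))) := by
    intro l
    induction l with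
    | nil => intro s; simp
    | cons b l ih => intro s; rw [List.foldl_cons, ih]; simp [Bool.and_assoc]
  rw [this]
  simp

theorem PolyTime.option_casesOn {o : α → Option β} {f : α → γ} {g : α × β → γ}
    (ho : PolyTime o) (hf : PolyTime f) (hg : PolyTime g) :
    PolyTime (fun a => (o a).casesOn (motive := fun _ => γ) (f a) (fun b => g (a, b))) := by
  have h1 := PolyTime.list_casesOn (g := fun x : α × (β × List β) => g (x.1, x.2.1))
    ho.option_toList hf (hg.comp (PolyTime.fst.pair (PolyTime.fst.comp .snd)))
  refine h1.of_eq fun a => ?_
  cases o a <;> rfl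

theorem PolyTime.head? {f : α → List β} (hf : PolyTime f) : PolyTime (fun a => (f a).head?) := by
  have h1 := PolyTime.list_casesOn (f := fun _ => (none : Option β))
    (g := fun x : α × (β × List β) => some x.2.1) hf (.const _)
    (PolyTime.option_some (PolyTime.fst.comp .snd))
  refine h1.of_eq fun a => ?_
  cases f a <;> rfl

theorem PolyTime.tail {f : α → List β} (hf : PolyTime f) : PolyTime (fun a => (f a).tail) := by
  have h1 := PolyTime.list_casesOn (f := fun _ => ([] : List β))
    (g := fun x : α × (β × List β) => x.2.2) hf (.const _)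
    (PolyTime.snd.comp .snd)
  refine h1.of_eq fun a => ?_
  cases f a <;> rfl

theorem PolyTime.option_getD {f : α → Option β} {g : α → β} (hf : PolyTime f)
    (hg : PolyTime g) : PolyTime (fun a => (f a).getD (g a)) := by
  have h1 := PolyTime.option_casesOn (g := fun x : α × β => x.2) hf hg .snd
  refine h1.of_eq fun a => ?_
  cases f a <;> rfl

theorem PolyTime.option_map {f : α → Option β} {g : α × β → γ} (hf : PolyTime f)
    (hg : PolyTime g) : PolyTime (fun a => (f a).map (fun b => g (a, b))) := by
  have h1 := PolyTime.option_casesOn (f := fun _ => (none : Option γ))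
    (g := fun x : α × β => some (g x)) hf (.const _) hg.option_some
  refine h1.of_eq fun a => ?_
  cases f a <;> rfl

theorem PolyTime.find? {f : α → List β} {p : α × β → Bool} (hf : PolyTime f)
    (hp : PolyTime p) : PolyTime (fun a => (f a).find? (fun b => p (a, b))) :=
  (PolyTime.filter hf hp).head?.of_eq fun a => by rw [List.head?_filter]

theorem PolyTime.succ {f : α → ℕ} (hf : PolyTime f) : PolyTime (fun a => f a + 1) := by
  apply PolyTime.of_units
  exact PolyTime.list_cons (PolyTime.const ()) hf.units

theorem PolyTime.length {f : α → List β} (hf : PolyTime f) : PolyTime (fun a => (f a).length) := by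
  apply PolyTime.of_units
  refine (PolyTime.map hf (PolyTime.const ())).of_eq fun a => ?_
  simp

theorem PolyTime.drop {f : α → List β} {n : α → ℕ} (hf : PolyTime f) (hn : PolyTime n) :
    PolyTime (fun a => (f a).drop (n a)) := by
  have h1 : PolyTime (fun a => (List.replicate (n a) ()).foldl (fun s _ => s.tail) (f a)) := by
    refine PolyTime.foldl_add (h := fun x : α × (Unit × List β) => x.2.2.tail)
      (K := fun _ => 0) hn.units hf ?_ (.const 0) ?_
    · exact (PolyTime.snd.comp .snd).tail
    · intro a b _ s
      simp only
      cases s with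
      | nil => simp
      | cons x s => rw [List.tail_cons, esize_cons]; omega
  refine h1.of_eq fun a => ?_
  have : ∀ (k : ℕ) (l : List β), (List.replicate k ()).foldl (fun s _ => s.tail) l
      = l.drop k := by
    intro k
    induction k with
    | zero => intro l; simp
    | succ k ih => intro l; rw [List.replicate_succ, List.foldl_cons, ih]; simp
  rw [this]

theorem PolyTime.getElem? {f : α → List β} {n : α → ℕ} (hf : PolyTime f) (hn : PolyTime n) :
    PolyTime (fun a => (f a)[n a]?) :=
  (PolyTime.drop hf hn).head?.of_eq fun a => by rw [List.head?_drop]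

theorem PolyTime.isNil {f : α → List β} (hf : PolyTime f) : PolyTime (fun a => (f a).isEmpty) := by
  have h1 := PolyTime.list_casesOn (f := fun _ => true)
    (g := fun _ : α × (β × List β) => false) hf (.const _) (.const _)
  refine h1.of_eq fun a => ?_
  cases f a <;> rfl

theorem PolyTime.lt {f g : α → ℕ} (hf : PolyTime f) (hg : PolyTime g) :
    PolyTime (fun a => decide (f a < g a)) := by
  refine (PolyTime.drop hg.units hf).isNil.not.of_eq fun a => ?_
  by_cases h : f a < g a
  · simp [h]; omega
  · simp [h]; omega

theorem PolyTime.le {f g : α → ℕ} (hf : PolyTime f) (hg : PolyTime g) :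
    PolyTime (fun a => decide (f a ≤ g a)) := by
  refine (PolyTime.lt hg hf).not.of_eq fun a => ?_
  by_cases h : f a ≤ g a
  · simp [h]
  · simp [h]; omega

theorem PolyTime.nat_eq {f g : α → ℕ} (hf : PolyTime f) (hg : PolyTime g) :
    PolyTime (fun a => decide (f a = g a)) := by
  refine ((PolyTime.le hf hg).and (PolyTime.le hg hf)).of_eq fun a => ?_
  by_cases h : f a = g a
  · simp [h]
  · simp [h]; omega

theorem PolyTime.range {n : α → ℕ} (hn : PolyTime n) : PolyTime (fun a => List.range (n a)) := by
  have h1 : PolyTime (fun a => (List.replicate (n a) ()).foldl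
      (fun (s : List ℕ) _ => s ++ [s.length]) []) := by
    refine PolyTime.foldl (g := fun _ => [])
      (h := fun x : α × (Unit × List ℕ) => x.2.2 ++ [x.2.2.length])
      (T := fun a => (n a) * (2 * n a + 2) + 1) hn.units (.const _) ?_ ?_ ?_
    · have e : PolyTime (fun x : α × (Unit × List ℕ) => x.2.2) := PolyTime.snd.comp .snd
      exact e.append (PolyTime.list_cons e.length (.const _))
    · have hb : PolyBd n := hn.polyBd.of_le fun a => by rw [esize_nat]; omega
      exact (hb.mul (((PolyBd.const 2).mul hb).add (.const 2))).add (.const 1)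
    · intro a l1 l2 hl
      have hlen : l1.length ≤ n a := by
        have := congrArg List.length hl
        simp at this
        omega
      have : ∀ (l : List Unit) (s : List ℕ), esize (l.foldl (fun (s : List ℕ) _ =>
          s ++ [s.length]) s) ≤ esize s + l.length * (2 * (s.length + l.length) + 2) := by
        intro l
        induction l with
        | nil => intro s; simp
        | cons u l ih =>
          intro s
          rw [List.foldl_cons]
          refine (ih _).trans ?_
          have h2 := esize_append s [s.length]
          rw [esize_cons, esize_nil, esize_nat] at h2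
          rw [List.length_append, List.length_cons, List.length_cons, List.length_nil]
          nlinarith
      refine (this l1 []).trans ?_
      rw [esize_nil, List.length_nil]
      nlinarith
  refine h1.of_eq fun a => ?_
  induction n a with
  | zero => simp
  | succ k ih =>
    rw [List.replicate_succ', List.foldl_append, ih, List.range_succ]
    simp

end Pool.Agent.Lib.MP_9ed008_lc.PT
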