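import Pool.Agent.Lib.MP_9ed008_lc.Encode
import Pool.Agent.Lib.MP_9ed008_lc.PTLists

/-!
# The decision procedure runs in polynomial time
-/

namespace Pool.Agent.Lib.MP_9ed008_lc

open Pool.Agent.Lib.PolyTime
open Pool.Agent.Lib.MP_9ed008_lc.PT

variable {α β γ : Type} [TEnc α] [TEnc β] [TEnc γ]

/-- the number of a symbol -/
def Sym.code : Sym → ℕ
  | .zero => 0
  | .one => 1
  | .zeroTwo => 2
  | .tick => 3
  | .sep => 4

instance : TEnc Sym := ⟨fun x => enc x.code⟩

theorem Sym.code_injective : Function.Injective Sym.code := by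
  intro a b h
  cases a <;> cases b <;> simp [Sym.code] at h ⊢

theorem poly_code {f : α → Sym} (hf : PolyTime f) : PolyTime (fun a => (f a).code) :=
  PolyF.of_enc hf (fun a => a) (fun _ => rfl) (fun _ => rfl)

theorem poly_symEq {f : α → Sym} (hf : PolyTime f) (e : Sym) :
    PolyTime (fun a => decide (f a = e)) := by
  refine (PolyTime.nat_eq (poly_code hf) (PolyTime.const e.code)).of_eq fun a => ?_
  exact decide_eq_decide.mpr Sym.code_injective.eq_iff

theorem poly_flatMap {f : α → List β} {g : α × β → List γ} (hf : PolyTime f)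
    (hg : PolyTime g) : PolyTime (fun a => (f a).flatMap (fun b => g (a, b))) := by
  obtain ⟨K, hK, hKb⟩ := PolyTime.bound_mem hf hg
  have h1 : PolyTime (fun a => (f a).foldl (fun s b => s ++ g (a, b)) []) := by
    refine PolyTime.foldl_add (g := fun _ => [])
      (h := fun x : α × (β × List γ) => x.2.2 ++ g (x.1, x.2.1))
      (K := K) hf (.const _) ?_ hK ?_
    · exact PolyTime.append (PolyTime.snd.comp .snd)
        (hg.comp (PolyTime.fst.pair (PolyTime.fst.comp .snd)))
    · intro a b hb s
      have := hKb a b hb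
      have h2 := esize_append s (g (a, b))
      simp only
      omega
  refine h1.of_eq fun a => ?_
  have : ∀ (l : List β) (s : List γ), l.foldl (fun s b => s ++ g (a, b)) s
      = s ++ l.flatMap (fun b => g (a, b)) := by
    intro l
    induction l with
    | nil => intro s; simp
    | cons b l ih => intro s; rw [List.foldl_cons, ih]; simp
  rw [this]
  simp

theorem poly_any {f : α → List β} {p : α × β → Bool} (hf : PolyTime f)
    (hp : PolyTime p) : PolyTime (fun a => (f a).any (fun b => p (a, b))) := by
  refine (PolyTime.all (p := fun x => !(p x)) hf hp.not).not.of_eq fun a => ?_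
  induction f a with
  | nil => rfl
  | cons b l ih => simp only [List.all_cons, List.any_cons, Bool.not_and, Bool.not_not, ih]

theorem esize_filter_le (p : β → Bool) (l : List β) : esize (l.filter p) ≤ esize l := by
  induction l with
  | nil => exact le_rfl
  | cons b l ih =>
    rw [List.filter_cons]
    split
    · rw [esize_cons, esize_cons]; omega
    · rw [esize_cons]; omega

omit [TEnc β] in
theorem esize_flatMap_le (g : β → List γ) (l : List β) (B : ℕ) (h : ∀ b ∈ l, esize (g b) ≤ B) :
    esize (l.flatMap g) ≤ 1 + l.length * B := by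
  induction l with
  | nil => simp [esize_nil]
  | cons b l ih =>
    rw [List.flatMap_cons, List.length_cons]
    have h1 := esize_append (g b) (l.flatMap g)
    have h2 := ih (fun b' hb' => h b' (List.mem_cons_of_mem _ hb'))
    have h3 := h b List.mem_cons_self
    have h4 : (l.length + 1) * B = l.length * B + B := by ring
    omega

theorem poly_memB {x : α → ℕ} {l : α → List ℕ} (hx : PolyTime x) (hl : PolyTime l) :
    PolyTime (fun a => memB (x a) (l a)) := by
  unfold memB
  exact poly_any (p := fun y : α × ℕ => decide (y.2 = x y.1)) hl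
    (PolyTime.nat_eq .snd (hx.comp .fst))

theorem poly_sbB {x y : α → List ℕ} (hx : PolyTime x) (hy : PolyTime y) :
    PolyTime (fun a => sbB (x a) (y a)) := by
  unfold sbB
  exact PolyTime.all (p := fun z : α × ℕ => memB z.2 (y z.1)) hx (poly_memB .snd (hy.comp .fst))

theorem poly_djB {x y : α → List ℕ} (hx : PolyTime x) (hy : PolyTime y) :
    PolyTime (fun a => djB (x a) (y a)) := by
  unfold djB
  exact PolyTime.all (p := fun z : α × ℕ => !(memB z.2 (y z.1))) hx
    (poly_memB .snd (hy.comp .fst)).not

theorem poly_dfB {x y : α → List ℕ} (hx : PolyTime x) (hy : PolyTime y) :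
    PolyTime (fun a => dfB (x a) (y a)) := by
  unfold dfB
  exact PolyTime.filter (p := fun z : α × ℕ => !(memB z.2 (y z.1))) hx
    (poly_memB .snd (hy.comp .fst)).not

theorem poly_unB {om x y : α → List ℕ} (ho : PolyTime om) (hx : PolyTime x) (hy : PolyTime y) :
    PolyTime (fun a => unB (om a) (x a) (y a)) := by
  unfold unB
  exact PolyTime.filter (p := fun z : α × ℕ => memB z.2 (x z.1) || memB z.2 (y z.1)) ho
    ((poly_memB .snd (hx.comp .fst)).or (poly_memB .snd (hy.comp .fst)))

theorem poly_ovB {x y : α → List ℕ} (hx : PolyTime x) (hy : PolyTime y) :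
    PolyTime (fun a => ovB (x a) (y a)) := by
  unfold ovB
  exact (poly_djB hx hy).not.and ((poly_sbB hx hy).not.and (poly_sbB hy hx).not)

theorem poly_candB {om x : α → List ℕ} {p : α → List ℕ × List ℕ} (ho : PolyTime om)
    (hx : PolyTime x) (hp : PolyTime p) : PolyTime (fun a => candB (om a) (x a) (p a)) := by
  unfold candB
  have h1 := poly_unB ho (PolyTime.fst.comp hp) (PolyTime.snd.comp hp)
  have h2 := poly_unB ho (PolyTime.snd.comp hp) (PolyTime.snd.comp hp)
  exact PolyTime.cond (poly_ovB hx h1) (PolyTime.list_cons (poly_dfB h1 hx) (.const _))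
    (PolyTime.cond (poly_ovB hx h2) (PolyTime.list_cons (poly_dfB h2 hx) (.const _)) (.const _))

theorem poly_deriveB {om x : α → List ℕ} {L : α → List (List ℕ × List ℕ)} (ho : PolyTime om)
    (hL : PolyTime L) (hx : PolyTime x) :
    PolyTime (fun a => deriveB (om a) (L a) (x a)) := by
  unfold deriveB
  refine PolyTime.map (f := fun a => ((L a).flatMap (fun p => candB (om a) (x a) p)).head?.toList)
    (g := fun z : α × List ℕ => (x z.1, z.2)) ?_ ((hx.comp .fst).pair .snd)
  refine PolyTime.option_toList (PolyTime.head? ?_)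
  exact poly_flatMap (g := fun z : α × (List ℕ × List ℕ) => candB (om z.1) (x z.1) z.2) hL
    (poly_candB (ho.comp .fst) (hx.comp .fst) .snd)

theorem poly_stepC {om : α → List ℕ} {As : α → List (List ℕ)} {L : α → List (List ℕ × List ℕ)}
    (ho : PolyTime om) (hAs : PolyTime As) (hL : PolyTime L) :
    PolyTime (fun a => stepC (om a) (As a) (L a)) := by
  unfold stepC
  refine hL.append ?_
  exact poly_flatMap (g := fun z : α × List ℕ => deriveB (om z.1) (L z.1) z.2) hAs
    (poly_deriveB (ho.comp .fst) (hL.comp .fst) .snd)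

theorem esize_deriveB_le (om : List ℕ) (L : List (List ℕ × List ℕ)) (a : List ℕ) :
    esize (deriveB om L a) ≤ esize a + esize om + 3 := by
  have h : ∀ v ∈ L.flatMap (fun p => candB om a p), esize v ≤ esize om := by
    intro v hv
    rw [List.mem_flatMap] at hv
    obtain ⟨p, _, hv⟩ := hv
    have h1 : ∀ x y, esize (dfB (unB om x y) a) ≤ esize om := fun x y =>
      (esize_filter_le _ _).trans (esize_filter_le _ _)
    unfold candB at hv
    cases h2 : ovB a (unB om p.1 p.2)
    · rw [h2, cond_false] at hv
      cases h3 : ovB a (unB om p.2 p.2)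
      · rw [h3, cond_false] at hv; simp at hv
      · rw [h3, cond_true, List.mem_singleton] at hv
        rw [hv]; exact h1 _ _
    · rw [h2, cond_true, List.mem_singleton] at hv
      rw [hv]; exact h1 _ _
  unfold deriveB
  cases hL : L.flatMap (fun p => candB om a p) with
  | nil =>
    simp only [List.head?_nil, Option.toList_none, List.map_nil]
    rw [esize_nil]
    omega
  | cons v l =>
    have h2 := h v (by rw [hL]; exact List.mem_cons_self)
    simp only [List.head?_cons, Option.toList_some, List.map_cons, List.map_nil]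
    rw [esize_cons, esize_nil, esize_pair]
    omega

theorem poly_closC {om x y : α → List ℕ} {As : α → List (List ℕ)}
    (ho : PolyTime om) (hAs : PolyTime As) (hx : PolyTime x) (hy : PolyTime y) :
    PolyTime (fun a => closC (om a) (As a) (x a) (y a)) := by
  unfold closC
  refine PolyTime.foldl_add (f := As) (g := fun a => [(x a, dfB (y a) (x a))])
    (h := fun z : α × (List ℕ × List (List ℕ × List ℕ)) => stepC (om z.1) (As z.1) z.2.2)
    (K := fun a => esize (As a) * (esize (As a) + esize (om a) + 3)) hAs
    (PolyTime.list_cons (hx.pair (poly_dfB hy hx)) (.const _))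
    (poly_stepC (ho.comp .fst) (hAs.comp .fst) (PolyTime.snd.comp .snd)) ?_ ?_
  · exact hAs.polyBd.mul ((hAs.polyBd.add ho.polyBd).add (.const 3))
  · intro a b _ s
    simp only
    unfold stepC
    have h1 := esize_append s ((As a).flatMap (fun c => deriveB (om a) s c))
    have h2 := esize_flatMap_le (fun c => deriveB (om a) s c) (As a)
      (esize (As a) + esize (om a) + 3) (by
        intro c hc
        have h3 := esize_deriveB_le (om a) s c
        have h4 := esize_mem hc
        omega)
    have h5 : (As a).length * (esize (As a) + esize (om a) + 3) ≤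
        esize (As a) * (esize (As a) + esize (om a) + 3) :=
      Nat.mul_le_mul_right _ (length_lt_esize _).le
    omega

theorem poly_famC {om : α → List ℕ} {As : α → List (List ℕ)}
    (ho : PolyTime om) (hAs : PolyTime As) : PolyTime (fun a => famC (om a) (As a)) := by
  unfold famC
  refine PolyTime.list_cons (.const _) (PolyTime.list_cons ho (hAs.append ?_))
  refine poly_flatMap (g := fun z : α × List ℕ => (As z.1).flatMap (fun b =>
    (closC (om z.1) (As z.1) z.2 b).flatMap (fun p => [p.2, unB (om z.1) p.1 p.2]))) hAs ?_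
  refine poly_flatMap (g := fun z : (α × List ℕ) × List ℕ =>
    (closC (om z.1.1) (As z.1.1) z.1.2 z.2).flatMap (fun p => [p.2, unB (om z.1.1) p.1 p.2]))
    (hAs.comp .fst) ?_
  have ho1 : PolyTime (fun z : (α × List ℕ) × List ℕ => om z.1.1) :=
    ho.comp (PolyTime.fst.comp .fst)
  refine poly_flatMap (g := fun z : ((α × List ℕ) × List ℕ) × (List ℕ × List ℕ) =>
    [z.2.2, unB (om z.1.1.1) z.2.1 z.2.2])
    (poly_closC ho1 (hAs.comp (PolyTime.fst.comp .fst)) (PolyTime.snd.comp .fst) .snd) ?_
  have h2 : PolyTime (fun z : ((α × List ℕ) × List ℕ) × (List ℕ × List ℕ) => z.2.2) :=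
    PolyTime.snd.comp .snd
  have h1 : PolyTime (fun z : ((α × List ℕ) × List ℕ) × (List ℕ × List ℕ) => z.2.1) :=
    PolyTime.fst.comp .snd
  exact PolyTime.list_cons h2 (PolyTime.list_cons (poly_unB (ho1.comp .fst) h1 h2) (.const _))

theorem poly_flipB {a x m : α → List ℕ} (ha : PolyTime a) (hx : PolyTime x) (hm : PolyTime m) :
    PolyTime (fun t => flipB (a t) (x t) (m t)) := by
  unfold flipB
  exact (poly_sbB ha hx).and (((poly_djB ha hm).not.and (poly_sbB ha hm).not).or (poly_sbB hx ha))

theorem poly_hsB {a x m : α → List ℕ} (ha : PolyTime a) (hx : PolyTime x) (hm : PolyTime m) :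
    PolyTime (fun t => hsB (a t) (x t) (m t)) := by
  unfold hsB
  exact PolyTime.cond (poly_flipB ha hx hm) (poly_dfB hx ha)
    (PolyTime.cond (poly_sbB ha hx) ha
      (PolyTime.cond (poly_djB ha hx) (.const _) (poly_dfB hx ha)))

theorem poly_condB {chars : α → List (List ℕ × List ℕ)} {G : α → List (List ℕ)}
    {x m : α → List ℕ} (hc : PolyTime chars) (hG : PolyTime G) (hx : PolyTime x)
    (hm : PolyTime m) : PolyTime (fun t => condB (chars t) (G t) (x t) (m t)) := by
  unfold condB
  refine PolyTime.and ?_ ?_
  · refine PolyTime.all (p := fun z : α × (List ℕ × List ℕ) =>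
      !(flipB z.2.1 (x z.1) (m z.1)) || sbB (dfB (x z.1) z.2.1) z.2.2) hc ?_
    have h1 : PolyTime (fun z : α × (List ℕ × List ℕ) => z.2.1) := PolyTime.fst.comp .snd
    have h2 : PolyTime (fun z : α × (List ℕ × List ℕ) => z.2.2) := PolyTime.snd.comp .snd
    exact (poly_flipB h1 (hx.comp .fst) (hm.comp .fst)).not.or
      (poly_sbB (poly_dfB (hx.comp .fst) h1) h2)
  · refine PolyTime.all (p := fun z : α × ℕ => (G z.1).any (fun k => memB z.2 k &&
      (sbB k (x z.1) && (!(sbB (x z.1) k) &&
      (chars z.1).all (fun c => sbB (hsB c.1 (x z.1) (m z.1)) k ||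
        djB (hsB c.1 (x z.1) (m z.1)) k))))) hx ?_
    refine poly_any (p := fun z : (α × ℕ) × List ℕ => memB z.1.2 z.2 &&
      (sbB z.2 (x z.1.1) && (!(sbB (x z.1.1) z.2) &&
      (chars z.1.1).all (fun c => sbB (hsB c.1 (x z.1.1) (m z.1.1)) z.2 ||
        djB (hsB c.1 (x z.1.1) (m z.1.1)) z.2)))) (hG.comp .fst) ?_
    have hx1 : PolyTime (fun z : (α × ℕ) × List ℕ => x z.1.1) := hx.comp (PolyTime.fst.comp .fst)
    have hm1 : PolyTime (fun z : (α × ℕ) × List ℕ => m z.1.1) := hm.comp (PolyTime.fst.comp .fst)
    have hc1 : PolyTime (fun z : (α × ℕ) × List ℕ => chars z.1.1) :=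
      hc.comp (PolyTime.fst.comp .fst)
    refine (poly_memB (PolyTime.snd.comp .fst) .snd).and ((poly_sbB .snd hx1).and
      ((poly_sbB hx1 .snd).not.and ?_))
    refine PolyTime.all (p := fun z : ((α × ℕ) × List ℕ) × (List ℕ × List ℕ) =>
      sbB (hsB z.2.1 (x z.1.1.1) (m z.1.1.1)) z.1.2 ||
        djB (hsB z.2.1 (x z.1.1.1) (m z.1.1.1)) z.1.2) hc1 ?_
    have h1 : PolyTime (fun z : ((α × ℕ) × List ℕ) × (List ℕ × List ℕ) => z.2.1) :=
      PolyTime.fst.comp .snd
    have h2 := poly_hsB h1 (hx1.comp .fst) (hm1.comp .fst)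
    have h3 : PolyTime (fun z : ((α × ℕ) × List ℕ) × (List ℕ × List ℕ) => z.1.2) :=
      PolyTime.snd.comp .fst
    exact (poly_sbB h2 h3).or (poly_djB h2 h3)

theorem poly_singB {om : α → List ℕ} (ho : PolyTime om) : PolyTime (fun a => singB (om a)) := by
  unfold singB
  exact PolyTime.map (g := fun z : α × ℕ => [z.2]) ho (PolyTime.list_cons .snd (.const _))

theorem poly_stepG {om : α → List ℕ} {chars : α → List (List ℕ × List ℕ)}
    {fam G : α → List (List ℕ)} (ho : PolyTime om) (hc : PolyTime chars) (hf : PolyTime fam)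
    (hG : PolyTime G) : PolyTime (fun a => stepG (om a) (chars a) (fam a) (G a)) := by
  unfold stepG
  refine (poly_singB ho).append ?_
  refine PolyTime.filter (p := fun z : α × List ℕ => (fam z.1).any (fun m =>
    condB (chars z.1) (G z.1) z.2 m)) hf ?_
  refine poly_any (p := fun z : (α × List ℕ) × List ℕ =>
    condB (chars z.1.1) (G z.1.1) z.1.2 z.2) (hf.comp .fst) ?_
  exact poly_condB (hc.comp (PolyTime.fst.comp .fst)) (hG.comp (PolyTime.fst.comp .fst))
    (PolyTime.snd.comp .fst) .snd

theorem poly_foldG {om : α → List ℕ} {chars : α → List (List ℕ × List ℕ)}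
    {fam : α → List (List ℕ)} (ho : PolyTime om) (hc : PolyTime chars) (hfam : PolyTime fam) :
    PolyTime (fun a => (0 :: om a).foldl (fun G _ => stepG (om a) (chars a) (fam a) G)
      (singB (om a))) := by
  refine PolyTime.foldl_add (f := fun a => 0 :: om a) (g := fun a => singB (om a))
    (h := fun z : α × (ℕ × List (List ℕ)) => stepG (om z.1) (chars z.1) (fam z.1) z.2.2)
    (K := fun a => esize (singB (om a)) + esize (fam a))
    (PolyTime.list_cons (.const 0) ho) (poly_singB ho) ?_ ((poly_singB ho).polyBd.add hfam.polyBd)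
    ?_
  · exact poly_stepG (ho.comp .fst) (hc.comp .fst) (hfam.comp .fst) (PolyTime.snd.comp .snd)
  · intro a b _ s
    simp only
    unfold stepG
    have h1 := esize_append (singB (om a)) ((fam a).filter
      (fun x => (fam a).any (fun m => condB (chars a) s x m)))
    have h2 := esize_filter_le (fun x => (fam a).any (fun m => condB (chars a) s x m)) (fam a)
    omega

theorem poly_decideB {om : α → List ℕ} {chars : α → List (List ℕ × List ℕ)}
    (ho : PolyTime om) (hc : PolyTime chars) : PolyTime (fun a => decideB (om a) (chars a)) := by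
  have hAs : PolyTime (fun a => (chars a).map (fun c => c.1)) :=
    PolyTime.map (g := fun z : α × (List ℕ × List ℕ) => z.2.1) hc (PolyTime.fst.comp .snd)
  have hG := poly_foldG ho hc (poly_famC ho hAs)
  exact poly_any (p := fun z : α × List ℕ => sbB (om z.1) z.2 && sbB z.2 (om z.1)) hG
    ((poly_sbB (ho.comp .fst) .snd).and (poly_sbB .snd (ho.comp .fst)))

theorem poly_symAt {rows : α → List (List Sym)} {s c : α → ℕ} (hr : PolyTime rows)
    (hs : PolyTime s) (hc : PolyTime c) : PolyTime (fun a => symAt (rows a) (s a) (c a)) := by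
  unfold symAt
  exact PolyTime.option_getD (PolyTime.getElem? (PolyTime.option_getD
    (PolyTime.getElem? hr hs) (.const _)) hc) (.const _)

theorem poly_colB {rows : α → List (List Sym)} {c : α → ℕ} (e : Sym) (hr : PolyTime rows)
    (hc : PolyTime c) : PolyTime (fun a => colB (rows a) e (c a)) := by
  unfold colB
  refine PolyTime.filter (p := fun z : α × ℕ => decide (symAt (rows z.1) z.2 (c z.1) = e))
    (PolyTime.range hr.length) ?_
  exact poly_symEq (poly_symAt (hr.comp .fst) .snd (hc.comp .fst)) e

theorem poly_charsB {rows : α → List (List Sym)} {m : α → ℕ} (hm : PolyTime m)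
    (hr : PolyTime rows) : PolyTime (fun a => charsB (m a) (rows a)) := by
  unfold charsB
  refine PolyTime.map (g := fun z : α × ℕ => (colB (rows z.1) Sym.one z.2,
    colB (rows z.1) Sym.zeroTwo z.2)) hm.range ?_
  exact (poly_colB _ (hr.comp .fst) .snd).pair (poly_colB _ (hr.comp .fst) .snd)

theorem poly_solveBlocks {b : α → List (List Sym)} (hb : PolyTime b) :
    PolyTime (fun a => solveBlocks (b a)) := by
  unfold solveBlocks
  exact poly_decideB (PolyTime.range hb.tail.length)
    (poly_charsB (PolyTime.option_getD hb.head? (.const _)).length hb.tail)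

theorem poly_splitB {l : α → List Sym} (hl : PolyTime l) : PolyTime (fun a => splitB (l a)) := by
  unfold splitB
  refine PolyTime.reverse (PolyTime.fst.comp ?_)
  refine PolyTime.foldl_add (g := fun _ => (([] : List (List Sym)), ([] : List Sym)))
    (h := fun z : α × (Sym × (List (List Sym) × List Sym)) => splitStep z.2.2 z.2.1)
    (K := fun a => esize (l a) + 2) hl (.const _) ?_ (hl.polyBd.add (.const 2)) ?_
  · unfold splitStep
    have h0 : PolyTime (fun z : α × (Sym × (List (List Sym) × List Sym)) => z.2.1) :=
      PolyTime.fst.comp .snd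
    have h1 : PolyTime (fun z : α × (Sym × (List (List Sym) × List Sym)) => z.2.2.1) :=
      PolyTime.fst.comp (PolyTime.snd.comp .snd)
    have h2 : PolyTime (fun z : α × (Sym × (List (List Sym) × List Sym)) => z.2.2.2) :=
      PolyTime.snd.comp (PolyTime.snd.comp .snd)
    exact PolyTime.cond (poly_symEq h0 _) ((PolyTime.list_cons h2.reverse h1).pair (.const _))
      (h1.pair (PolyTime.list_cons h0 h2))
  · intro a b hb s
    simp only
    obtain ⟨out, cur⟩ := s
    unfold splitStep
    have h1 := esize_mem hb
    cases decide (b = Sym.sep)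
    · simp only [cond_false]
      rw [esize_pair, esize_pair, esize_cons]
      omega
    · simp only [cond_true]
      rw [esize_pair, esize_pair, esize_cons, esize_reverse, esize_nil]
      omega

/-- The decision procedure on strings runs in polynomial time. -/
theorem poly_solveB : PolyTime solveB := poly_solveBlocks (poly_splitB .id)

end Pool.Agent.Lib.MP_9ed008_lc
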